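import Pool.Agent.H70.WP.OP

/-!
# [H70 WP OP2] First equations `A z = z D`, `A` and `D` conjugate
-/

set_option autoImplicit false

namespace Pool.Agent.H70.WE

variable {α : Type}

/-- a conjugate of an `m`-th power is an `m`-th power -/
theorem conj_pow (w : List α) (m : ℕ) : ∀ (N : ℕ) (s t : List α), s.length ≤ N → s ++ t = pow w m →
    ∃ w' : List α, t ++ s = pow w' m ∧ w'.length = w.length := by
  intro N
  induction N with
  | zero =>
    intro s t hs h
    have h1 : s = [] := List.eq_nil_of_length_eq_zero (by omega)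
    subst h1
    exact ⟨w, by simpa using h, rfl⟩
  | succ N ih =>
    intro s t hs h
    rcases Nat.eq_zero_or_pos m with hm | hm
    · subst hm
      rw [pow_zero'] at h
      have h1 := List.append_eq_nil_iff.1 h
      exact ⟨w, by rw [h1.1, h1.2]; rfl, rfl⟩
    obtain ⟨m', rfl⟩ : ∃ m', m = m' + 1 := ⟨m - 1, by omega⟩
    have hw : pow w (m' + 1) = w ++ pow w m' := by rw [Nat.add_comm, pow_add', pow_one'']
    have hw' : pow w (m' + 1) = pow w m' ++ w := by rw [pow_add', pow_one'']
    rcases List.eq_nil_or_concat w with hw0 | ⟨w0, c, hw0⟩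
    · subst hw0
      rw [pow_nil] at h
      have h1 := List.append_eq_nil_iff.1 h
      exact ⟨[], by rw [h1.1, h1.2, pow_nil]; rfl, rfl⟩
    have hwpos : 0 < w.length := by rw [hw0]; simp
    rcases Nat.lt_or_ge s.length w.length with hlt | hge
    · -- `s` is a prefix of `w`
      have h1 : s <+: w := by
        apply List.prefix_of_prefix_length_le (l₃ := pow w (m' + 1)) _ _ hlt.le
        · exact ⟨t, h⟩
        · exact ⟨pow w m', hw.symm⟩
      obtain ⟨w2, hw2⟩ := h1
      refine ⟨w2 ++ s, ?_, by rw [← hw2]; simp [Nat.add_comm]⟩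
      have h2 : t = w2 ++ pow w m' := by
        rw [hw] at h
        nth_rewrite 1 [← hw2] at h
        rw [List.append_assoc] at h
        exact List.append_cancel_left h
      have hconj : ∀ N : ℕ, pow (w2 ++ s) (N + 1) = w2 ++ pow (s ++ w2) N ++ s := by
        intro N
        induction N with
        | zero => rw [pow_one'', pow_zero', List.append_nil]
        | succ N ih =>
          rw [pow_add' _ (N + 1) 1, ih, pow_one'', pow_add' _ N 1, pow_one'']
          simp only [List.append_assoc]
      rw [hconj, h2, hw2]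
    · have h1 : w <+: s := by
        apply List.prefix_of_prefix_length_le (l₃ := pow w (m' + 1)) _ _ hge
        · exact ⟨pow w m', hw.symm⟩
        · exact ⟨t, h⟩
      obtain ⟨s', hs'⟩ := h1
      have h2 : s' ++ t = pow w m' := by
        rw [← hs', hw, List.append_assoc] at h
        exact List.append_cancel_left h
      have h3 : s' ++ (t ++ w) = pow w (m' + 1) := by
        rw [hw', ← h2, List.append_assoc]
      have hl : s'.length ≤ N := by
        have : s.length = w.length + s'.length := by rw [← hs', List.length_append]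
        omega
      obtain ⟨w', h4, h5⟩ := ih s' (t ++ w) hl h3
      refine ⟨w', ?_, h5⟩
      rw [← hs', ← h4, List.append_assoc]

theorem conj_pow' {w s t : List α} {m : ℕ} (h : s ++ t = pow w m) :
    ∃ w' : List α, t ++ s = pow w' m ∧ w'.length = w.length :=
  conj_pow w m _ s t le_rfl h

theorem length_val (h : Fin 3 → List α) {U : List (Fin 3)} (hU : (2 : Fin 3) ∉ U) :
    (val h U).length = U.count 0 * (h 0).length + U.count 1 * (h 1).length := by
  induction U with
  | nil => simp [val]
  | cons c U ih =>
    have e1 : val h (c :: U) = h c ++ val h U := by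
      unfold val
      rw [List.flatMap_cons]
    rw [e1, List.length_append, ih (fun hh => hU (List.mem_cons_of_mem _ hh))]
    fin_cases c
    · show (h 0).length + _ = _
      simp
      ring
    · show (h 1).length + _ = _
      simp
      ring
    · exact absurd List.mem_cons_self hU

/-- the family of `A z = z V U`, `A = U V`, when no value of `A` is a proper power -/
theorem fam_rt {A U V : List (Fin 3)} (hA2 : (2 : Fin 3) ∉ A) (hA0 : (0 : Fin 3) ∈ A) (hA1 : (1 : Fin 3) ∈ A)
    (hUV : A = U ++ V) (h : Fin 3 → List α) (hn : ¬ Per h)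
    (hrt : h 0 ++ h 1 ≠ h 1 ++ h 0 → ∀ (w : List α) (m : ℕ), 2 ≤ m → val h A ≠ pow w m)
    (hs : Solves h (A ++ [2], [2] ++ V ++ U)) :
    h 0 ++ h 1 ≠ h 1 ++ h 0 ∧ ∃ i : ℕ, h 2 = pow (val h A) i ++ val h (if V = [] then [] else U) := by
  have hnU : (2 : Fin 3) ∉ U := fun hh => hA2 (hUV ▸ List.mem_append_left _ hh)
  have hnV : (2 : Fin 3) ∉ V := fun hh => hA2 (hUV ▸ List.mem_append_right _ hh)
  have hc0 : 0 < A.count 0 := List.count_pos_iff.2 hA0
  have hc1 : 0 < A.count 1 := List.count_pos_iff.2 hA1
  have hvu : ∀ c : Fin 3, (V ++ U).count c = A.count c := by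
    intro c
    rw [hUV, List.count_append, Nat.add_comm, ← List.count_append]
  have hnVU : (2 : Fin 3) ∉ V ++ U := fun hh => by
    rcases List.mem_append.1 hh with hh | hh
    · exact hnV hh
    · exact hnU hh
  have heq : val h A ++ h 2 = h 2 ++ val h (V ++ U) := by
    have h1 : val h (A ++ [2]) = val h ([2] ++ V ++ U) := hs
    rw [val_append, val_one', List.append_assoc, val_append h [2], val_one'] at h1
    exact h1
  have hxy : h 0 ++ h 1 ≠ h 1 ++ h 0 := by
    intro hc
    obtain ⟨w, a, b, h0, h1⟩ := comm_pow _ _ hc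
    change h 0 = pow w a at h0
    change h 1 = pow w b at h1
    have e1 := val_pow_of_comm h0 h1 hA2
    have e2 := val_pow_of_comm h0 h1 hnVU
    rw [hvu 0, hvu 1] at e2
    rw [e1, e2] at heq
    generalize A.count 0 = cp at *
    generalize A.count 1 = cq at *
    rcases Nat.eq_zero_or_pos (cp * a + cq * b) with h00 | h00
    · have ha : a = 0 := by
        rcases Nat.eq_zero_or_pos a with ha | ha
        · exact ha
        · have := Nat.mul_pos hc0 ha
          omega
      have hb : b = 0 := by
        rcases Nat.eq_zero_or_pos b with hb | hb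
        · exact hb
        · have := Nat.mul_pos hc1 hb
          omega
      apply hn
      refine ⟨h 2, fun c => ?_⟩
      fin_cases c
      · refine ⟨0, ?_⟩
        show h 0 = []
        rw [h0, ha]
        rfl
      · refine ⟨0, ?_⟩
        show h 1 = []
        rw [h1, hb]
        rfl
      · exact ⟨1, (pow_one'' (h 2)).symm⟩
    · have hrel := rel_comm w (h 2) (List.replicate (cp * a + cq * b) true ++ [false])
        (false :: List.replicate (cp * a + cq * b) true) (by
          intro he
          obtain ⟨N, hN⟩ : ∃ N, cp * a + cq * b = N + 1 := ⟨cp * a + cq * b - 1, by omega⟩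
          rw [hN] at he
          simp [List.replicate_succ] at he) (by
          have hf : ∀ N : ℕ, (List.replicate N true).flatMap (fun c => if c then w else h 2) = pow w N := by
            intro N
            induction N with
            | zero => rfl
            | succ N ih =>
              rw [List.replicate_succ, List.flatMap_cons, ih, Nat.add_comm N 1, pow_add', pow_one'']
              rfl
          rw [List.flatMap_append, List.flatMap_cons, hf]
          simpa [hf] using heq)
      obtain ⟨ρ, c, d, hw, hz⟩ := comm_pow _ _ hrel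
      change w = pow ρ c at hw
      change h 2 = pow ρ d at hz
      apply hn
      refine ⟨ρ, fun u => ?_⟩
      fin_cases u
      · exact ⟨c * a, by show h 0 = pow ρ (c * a); rw [pow_mul', ← hw, h0]⟩
      · exact ⟨c * b, by show h 1 = pow ρ (c * b); rw [pow_mul', ← hw, h1]⟩
      · exact ⟨d, hz⟩
  refine ⟨hxy, ?_⟩
  have hx : h 0 ≠ [] := by
    intro h0
    apply hxy
    rw [h0, List.nil_append, List.append_nil]
  have hy : h 1 ≠ [] := by
    intro h0
    apply hxy
    rw [h0, List.nil_append, List.append_nil]
  have hne : ∀ W : List (Fin 3), (2 : Fin 3) ∉ W → W ≠ [] → val h W ≠ [] := by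
    intro W hW hW0 h4
    obtain ⟨c, V', rfl⟩ := List.exists_cons_of_ne_nil hW0
    have h5 : val h (c :: V') = h c ++ val h V' := by
      unfold val
      rw [List.flatMap_cons]
    rw [h5] at h4
    have h6 := (List.append_eq_nil_iff.1 h4).1
    fin_cases c
    · exact hx h6
    · exact hy h6
    · exact hW List.mem_cons_self
  have hA : val h A = val h U ++ val h V := by rw [hUV, val_append]
  rw [val_append h V] at heq
  -- `z V` commutes with `A`
  have hcA : (h 2 ++ val h V) ++ val h A = val h A ++ (h 2 ++ val h V) := by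
    rw [← List.append_assoc (val h A), heq, hA]
    simp only [List.append_assoc]
  obtain ⟨w, k, m, hk, hm⟩ := comm_pow _ _ hcA
  change h 2 ++ val h V = pow w k at hk
  change val h A = pow w m at hm
  have hm1 : m = 1 := by
    rcases Nat.lt_or_ge m 2 with h2 | h2
    · rcases Nat.eq_zero_or_pos m with h3 | h3
      · exfalso
        refine hne A hA2 (fun h4 => by rw [h4] at hA0; cases hA0) ?_
        rw [hm, h3]
        rfl
      · omega
    · exact absurd hm (hrt hxy w m h2)
  rw [hm1, pow_one''] at hm
  rw [← hm] at hk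
  by_cases hV : V = []
  · refine ⟨k, ?_⟩
    rw [if_pos hV]
    rw [hV] at hk
    show h 2 = pow (val h A) k ++ []
    rw [List.append_nil]
    have h6 : h 2 ++ [] = pow (val h A) k := hk
    rw [List.append_nil] at h6
    exact h6
  · rcases Nat.eq_zero_or_pos k with h3 | h3
    · exfalso
      rw [h3, pow_zero'] at hk
      exact hne V hnV hV (List.append_eq_nil_iff.1 hk).2
    · obtain ⟨k'', rfl⟩ : ∃ k'', k = k'' + 1 := ⟨k - 1, by omega⟩
      refine ⟨k'', ?_⟩
      rw [if_neg hV]
      rw [pow_add', pow_one''] at hk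
      have hc2 : h 2 ++ val h V = pow (val h A) k'' ++ (val h U ++ val h V) := by
        rw [← hA]
        exact hk
      rw [← List.append_assoc] at hc2
      exact List.append_cancel_right hc2

/-- a conjugate of `u^p v^q` -/
def PowPow (A : List (Fin 3)) : Prop :=
  ∃ (p q : ℕ) (u v S T : List (Fin 3)), 2 ≤ p ∧ 2 ≤ q ∧ u ++ v ≠ v ++ u ∧ A = S ++ T ∧
    T ++ S = pow u p ++ pow v q

/-- two different conjugates of `A` have a common prefix `W` which contains at least half of the `x` and at
least half of the `y` of `A` -/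
def HalfRep (A : List (Fin 3)) : Prop :=
  ∃ S T S' T' W M M' : List (Fin 3), A = S ++ T ∧ A = S' ++ T' ∧ T ++ S ≠ T' ++ S' ∧ T ++ S = W ++ M ∧
    T' ++ S' = W ++ M' ∧ A.count 0 ≤ 2 * W.count 0 ∧ A.count 1 ≤ 2 * W.count 1

theorem rt_powpow {A : List (Fin 3)} (hA2 : (2 : Fin 3) ∉ A) (hA : PowPow A) (h : Fin 3 → List α)
    (hxy : h 0 ++ h 1 ≠ h 1 ++ h 0) (w : List α) (m : ℕ) (hm : 2 ≤ m) : val h A ≠ pow w m := by
  intro he
  obtain ⟨p, q, u, v, S, T, hp, hq, huv, hST, hTS⟩ := hA
  have hno : (2 : Fin 3) ∉ pow u p ++ pow v q := by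
    rw [← hTS]
    intro hh
    apply hA2
    rw [hST]
    rcases List.mem_append.1 hh with hh | hh
    · exact List.mem_append_right _ hh
    · exact List.mem_append_left _ hh
  have hu2 : (2 : Fin 3) ∉ u := fun hh => hno (List.mem_append_left _ (mem_pow (by omega) hh))
  have hv2 : (2 : Fin 3) ∉ v := fun hh => hno (List.mem_append_right _ (mem_pow (by omega) hh))
  rw [hST, val_append] at he
  obtain ⟨w', h1, -⟩ := conj_pow' he
  rw [← val_append, hTS, val_append, val_pow, val_pow] at h1
  have h2 := lyndon_sch _ _ _ hp hq hm h1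
  rw [← val_append, ← val_append] at h2
  apply huv
  refine val_inj h hxy ?_ ?_ h2
  · exact fun hh => (List.mem_append.1 hh).elim hu2 hv2
  · exact fun hh => (List.mem_append.1 hh).elim hv2 hu2

theorem rt_halfrep {A : List (Fin 3)} (hA2 : (2 : Fin 3) ∉ A) (hA : HalfRep A) (h : Fin 3 → List α)
    (hxy : h 0 ++ h 1 ≠ h 1 ++ h 0) (w : List α) (m : ℕ) (hm : 2 ≤ m) : val h A ≠ pow w m := by
  intro he
  obtain ⟨S, T, S', T', W, M, M', hST, hST', hne, hW, hW', h0, h1⟩ := hA
  have hn1 : (2 : Fin 3) ∉ T ++ S := fun hh => hA2 (by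
    rw [hST]
    rcases List.mem_append.1 hh with hh | hh
    · exact List.mem_append_right _ hh
    · exact List.mem_append_left _ hh)
  have hn2 : (2 : Fin 3) ∉ T' ++ S' := fun hh => hA2 (by
    rw [hST']
    rcases List.mem_append.1 hh with hh | hh
    · exact List.mem_append_right _ hh
    · exact List.mem_append_left _ hh)
  have hnW : (2 : Fin 3) ∉ W := fun hh => hn1 (hW ▸ List.mem_append_left _ hh)
  have he1 := he
  have he2 := he
  rw [hST, val_append] at he1
  rw [hST', val_append] at he2
  obtain ⟨w1, k1, l1⟩ := conj_pow' he1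
  obtain ⟨w2, k2, l2⟩ := conj_pow' he2
  rw [← val_append] at k1 k2
  -- the length of `W`
  have hlen : w.length ≤ (val h W).length := by
    have e1 := congrArg List.length he
    rw [length_val h hA2, pow_length] at e1
    rw [length_val h hnW]
    have e2 : 2 * w.length ≤ m * w.length := Nat.mul_le_mul_right _ hm
    have e3 : A.count 0 * (h 0).length ≤ 2 * W.count 0 * (h 0).length := Nat.mul_le_mul_right _ h0
    have e4 : A.count 1 * (h 1).length ≤ 2 * W.count 1 * (h 1).length := Nat.mul_le_mul_right _ h1
    have e5 : 2 * W.count 0 * (h 0).length = 2 * (W.count 0 * (h 0).length) := by ring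
    have e6 : 2 * W.count 1 * (h 1).length = 2 * (W.count 1 * (h 1).length) := by ring
    omega
  have hpre : ∀ (w' : List α) (C N : List (Fin 3)), w'.length = w.length → C = W ++ N →
      val h C = pow w' m → w' <+: val h W := by
    intro w' C N hl hC hv
    obtain ⟨m', rfl⟩ : ∃ m', m = m' + 1 := ⟨m - 1, by omega⟩
    apply List.prefix_of_prefix_length_le (l₃ := val h C) _ _ (by omega)
    · rw [hv, Nat.add_comm, pow_add', pow_one'']
      exact ⟨_, rfl⟩
    · rw [hC, val_append]
      exact ⟨_, rfl⟩
  have p1 := hpre w1 _ M l1 hW k1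
  have p2 := hpre w2 _ M' l2 hW' k2
  have h12 : w1 = w2 := by
    apply List.IsPrefix.eq_of_length
    · exact List.prefix_of_prefix_length_le p1 p2 (by omega)
    · omega
  apply hne
  apply val_inj h hxy hn1 hn2
  rw [k1, k2, h12]

theorem conj_bound {n : ℕ} {A U V : List (Fin 3)} (hA2 : (2 : Fin 3) ∉ A) (hA0 : (0 : Fin 3) ∈ A)
    (hA1 : (1 : Fin 3) ∈ A) (hUV : A = U ++ V) (hA : PowPow A ∨ HalfRep A)
    {E : Fin (n + 1) → List (Fin 3) × List (Fin 3)} (hE : Decreasing α (n + 1) E)
    (h0 : E 0 = (A ++ [2], [2] ++ V ++ U)) : n + 1 ≤ 7 := by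
  have hnQ : (2 : Fin 3) ∉ (if V = [] then [] else U) := by
    split_ifs
    · exact List.not_mem_nil
    · exact fun hh => hA2 (hUV ▸ List.mem_append_left _ hh)
  have := fam_bound (r := 1) hA2 hnQ hE (fun h hh hn => by
    have h1 := hh 0 (by simp)
    rw [h0] at h1
    refine fam_rt hA2 hA0 hA1 hUV h hn (fun hxy w m hm => ?_) h1
    rcases hA with hA | hA
    · exact rt_powpow hA2 hA h hxy w m hm
    · exact rt_halfrep hA2 hA h hxy w m hm)
  omega

end Pool.Agent.H70.WE
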