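import Pool.Agent.H70.WE.Typ

/-!
# [H70 WP Ch] A chain of seven equations which starts with `x^p y^q z = z x^p y^q`

With `P = x^p y^q`, `P' = x^p y^(q-1)` (`P = P' y`): `P z = z P`, `P P' z y z = z P' z y P`, `x z = z x`, `x y = y x`, `x = 1`, `y = 1`, `z = 1`.
Witnesses (letters `0, 1 : ℕ`): `x = [0], y = [1], z = [0]`; `x = [0], y = [1], z = P^2`; `x = [0], y = [1], z = P`; `x = [0], y = [1], z = []`;
`x = y = z = [0]`; `x = [], y = z = [0]`; `x = y = [], z = [0]`. At `z = P^2` the second equation would give (cancel `P` on the left)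
`P' P P y P P = P P P' P P y`, so `P' P` and `P P'` would be equal (same length prefixes), so `P P = P' y P' y`, compare the letter after `P'`: `0` and `1`.
At `z = P`, `z = []` it holds.
-/

set_option autoImplicit false

namespace Pool.Agent.H70.WE

/-- the word `x^p y^q` -/
def pq (p q : ℕ) : List (Fin 3) := List.replicate p 0 ++ List.replicate q 1

private def nw (p q : ℕ) : List ℕ := List.replicate p 0 ++ List.replicate q 1

private theorem val_pq (p q : ℕ) (z : List ℕ) : val ![[0], [1], z] (pq p q) = nw p q := by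
  unfold pq nw
  rw [val_append, val_replicate, val_replicate]
  simp [pow]

private theorem nw_succ (p q : ℕ) : nw p (q + 1) = nw p q ++ [1] := by
  unfold nw
  rw [List.replicate_succ', List.append_assoc]

private theorem nw_length (p q : ℕ) : (nw p q).length = p + q := by
  unfold nw
  simp

private theorem nw_cons (p q : ℕ) : nw (p + 1) q = 0 :: nw p q := by
  unfold nw
  rw [List.replicate_succ, List.cons_append]

private theorem solves_uni {h : Fin 3 → List ℕ} (n : Fin 3 → ℕ) (hh : ∀ c, h c = List.replicate (n c) 0)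
    {U V : List (Fin 3)} (hp : U.Perm V) : Solves h (U, V) := by
  have key : ∀ U : List (Fin 3), val h U = List.replicate (U.map n).sum 0 := by
    intro U
    induction U with
    | nil => rfl
    | cons a U ih =>
      show h a ++ val h U = _
      rw [ih, hh, List.map_cons, List.sum_cons, List.replicate_append_replicate]
  show val h U = val h V
  rw [key, key, (hp.map n).sum_eq]

private theorem perm1 (P Q : List (Fin 3)) : (P ++ (Q ++ [2, 1, 2])).Perm ([2] ++ (Q ++ ([2, 1] ++ P))) := by
  rw [List.perm_iff_count]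
  intro a
  simp only [List.count_append, List.count_cons, List.count_nil]
  omega

/-- the seven equations -/
private def ch (p q : ℕ) : Fin 7 → List (Fin 3) × List (Fin 3) :=
  ![(pq p (q + 1) ++ [2], [2] ++ pq p (q + 1)),
    (pq p (q + 1) ++ (pq p q ++ [2, 1, 2]), [2] ++ (pq p q ++ ([2, 1] ++ pq p (q + 1)))),
    ([0, 2], [2, 0]), ([0, 1], [1, 0]), ([0], []), ([1], []), ([2], [])]

private theorem e0 (p q : ℕ) (z : List ℕ) :
    Solves ![[0], [1], z] (pq p q ++ [2], [2] ++ pq p q) ↔ nw p q ++ z = z ++ nw p q := by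
  show val _ (pq p q ++ [2]) = val _ ([2] ++ pq p q) ↔ _
  rw [val_append, val_append, val_pq]
  simp [val]

private theorem e1 (p q : ℕ) (z : List ℕ) :
    Solves ![[0], [1], z] (pq p (q + 1) ++ (pq p q ++ [2, 1, 2]), [2] ++ (pq p q ++ ([2, 1] ++ pq p (q + 1)))) ↔
      nw p (q + 1) ++ (nw p q ++ (z ++ ([1] ++ z))) = z ++ (nw p q ++ (z ++ ([1] ++ nw p (q + 1)))) := by
  show val _ (pq p (q + 1) ++ (pq p q ++ [2, 1, 2])) = val _ ([2] ++ (pq p q ++ ([2, 1] ++ pq p (q + 1)))) ↔ _
  rw [val_append, val_append, val_append, val_append, val_append, val_pq, val_pq]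
  simp [val]

private theorem uni_all (p q : ℕ) {h : Fin 3 → List ℕ} (n : Fin 3 → ℕ) (hh : ∀ c, h c = List.replicate (n c) 0)
    (j : Fin 7) (hj : j < 4) : Solves h (ch p q j) := by
  fin_cases j
  · exact solves_uni n hh List.perm_append_comm
  · exact solves_uni n hh (perm1 _ _)
  · exact solves_uni n hh (List.Perm.swap _ _ _)
  · exact solves_uni n hh (List.Perm.swap _ _ _)
  all_goals exact absurd hj (by decide)

private theorem ne_last (a b : List ℕ) : a ++ [0] ≠ b ++ [1] := by
  intro h
  have := congrArg List.getLast? h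
  simp at this

private theorem dec_ch (p q : ℕ) : Decreasing ℕ 7 (ch (p + 1) q) := by
  intro i
  fin_cases i
  · refine ⟨![[0], [1], [0]], fun j hj => absurd hj (by simp), ?_⟩
    show ¬ Solves _ (pq (p + 1) (q + 1) ++ [2], [2] ++ pq (p + 1) (q + 1))
    rw [e0, nw_succ, ← List.append_assoc]
    exact ne_last _ _
  · refine ⟨![[0], [1], nw (p + 1) (q + 1) ++ nw (p + 1) (q + 1)], fun j hj => ?_, ?_⟩
    · fin_cases j
      · show Solves _ (pq (p + 1) (q + 1) ++ [2], [2] ++ pq (p + 1) (q + 1))
        rw [e0, List.append_assoc]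
      all_goals exact absurd hj (by decide)
    · show ¬ Solves _ (pq (p + 1) (q + 1) ++ (pq (p + 1) q ++ [2, 1, 2]), [2] ++ (pq (p + 1) q ++ ([2, 1] ++ pq (p + 1) (q + 1))))
      rw [e1]
      intro h
      rw [List.append_assoc (nw (p + 1) (q + 1)) (nw (p + 1) (q + 1)) (nw (p + 1) q ++ _)] at h
      have h1 := List.append_cancel_left h
      rw [nw_succ] at h1
      simp only [List.append_assoc] at h1
      have h2 := List.append_cancel_left h1
      rw [nw_cons] at h2
      simp at h2
  · refine ⟨![[0], [1], nw (p + 1) (q + 1)], fun j hj => ?_, ?_⟩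
    · fin_cases j
      · show Solves _ (pq (p + 1) (q + 1) ++ [2], [2] ++ pq (p + 1) (q + 1))
        rw [e0]
      · show Solves _ (pq (p + 1) (q + 1) ++ (pq (p + 1) q ++ [2, 1, 2]), [2] ++ (pq (p + 1) q ++ ([2, 1] ++ pq (p + 1) (q + 1))))
        rw [e1]
      all_goals exact absurd hj (by decide)
    · show ¬ (val _ [0, 2] = val _ [2, 0])
      intro h
      have h' : [0] ++ nw (p + 1) (q + 1) = nw (p + 1) (q + 1) ++ [0] := by simpa [val] using h
      rw [nw_succ, ← List.append_assoc] at h'
      exact ne_last _ _ h'.symm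
  · refine ⟨![[0], [1], []], fun j hj => ?_, ?_⟩
    · fin_cases j
      · show Solves _ (pq (p + 1) (q + 1) ++ [2], [2] ++ pq (p + 1) (q + 1))
        rw [e0]
        simp
      · show Solves _ (pq (p + 1) (q + 1) ++ (pq (p + 1) q ++ [2, 1, 2]), [2] ++ (pq (p + 1) q ++ ([2, 1] ++ pq (p + 1) (q + 1))))
        rw [e1]
        have := nw_succ (p + 1) q
        simp [this]
      · show val _ [0, 2] = val _ [2, 0]
        simp [val]
      all_goals exact absurd hj (by decide)
    · show ¬ (val _ [0, 1] = val _ [1, 0])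
      simp [val]
  · refine ⟨![[0], [0], [0]], fun j hj => uni_all _ _ ![1, 1, 1] (by decide) j hj, ?_⟩
    show ¬ (val _ [0] = val _ [])
    simp [val]
  · refine ⟨![[], [0], [0]], fun j hj => ?_, ?_⟩
    · by_cases h : j < 4
      · exact uni_all _ _ ![0, 1, 1] (by decide) j h
      · fin_cases j
        all_goals first
          | exact absurd hj (by decide)
          | exact absurd (by decide) h
          | skip
        show val _ [0] = val _ []
        simp [val]
    · show ¬ (val _ [1] = val _ [])
      simp [val]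
  · refine ⟨![[], [], [0]], fun j hj => ?_, ?_⟩
    · by_cases h : j < 4
      · exact uni_all _ _ ![0, 0, 1] (by decide) j h
      · fin_cases j
        all_goals first
          | exact absurd hj (by decide)
          | exact absurd (by decide) h
          | skip
        · show val _ [0] = val _ []
          simp [val]
        · show val _ [1] = val _ []
          simp [val]
    · show ¬ (val _ [2] = val _ [])
      simp [val]

theorem chain_pq (p q : ℕ) (hp : 1 ≤ p) (hq : 1 ≤ q) :
    ∃ E : Fin 7 → List (Fin 3) × List (Fin 3), E 0 = (pq p q ++ [2], [2] ++ pq p q) ∧ Decreasing ℕ 7 E := by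
  obtain ⟨p, rfl⟩ : ∃ p', p = p' + 1 := ⟨p - 1, by omega⟩
  obtain ⟨q, rfl⟩ : ∃ q', q = q' + 1 := ⟨q - 1, by omega⟩
  exact ⟨ch (p + 1) q, rfl, dec_ch p q⟩

end Pool.Agent.H70.WE
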