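import Pool.Agent.H70.WE.Typ

/-!
# [H70 WP Ch2] A chain of seven equations which starts with `A z = z A`
-/

set_option autoImplicit false

namespace Pool.Agent.H70.WE

private theorem comm_single {β : Type} {a : List β} {c : β} (h : a ++ [c] = [c] ++ a) : ∀ d ∈ a, d = c := by
  induction a with
  | nil => intro d hd; cases hd
  | cons x a ih =>
    rw [List.cons_append, List.singleton_append, List.cons_eq_cons] at h
    obtain ⟨h1, h2⟩ := h
    subst h1
    intro d hd
    rcases List.mem_cons.1 hd with h3 | h3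
    · exact h3
    · exact ih h2 d h3

/-- periodic solutions -/
private theorem solves_perm (n : Fin 3 → ℕ) {U V : List (Fin 3)} (hp : U.Perm V) :
    Solves (fun c => List.replicate (n c) 0 : Fin 3 → List ℕ) (U, V) := by
  have hv : ∀ W : List (Fin 3), val (fun c => List.replicate (n c) 0 : Fin 3 → List ℕ) W =
      List.replicate ((W.map n).sum) 0 := by
    intro W
    induction W with
    | nil => rfl
    | cons c W ih =>
      have h1 : val (fun c => List.replicate (n c) 0 : Fin 3 → List ℕ) (c :: W) =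
          List.replicate (n c) 0 ++ val (fun c => List.replicate (n c) 0 : Fin 3 → List ℕ) W := by
        unfold val
        rw [List.flatMap_cons]
      rw [h1, ih, ← List.replicate_add, List.map_cons, List.sum_cons]
  unfold Solves
  rw [hv, hv, (hp.map n).sum_eq]

/-- `x = [0], y = [1]`, and `z` -/
private def gg (z : List ℕ) : Fin 3 → List ℕ := ![[0], [1], z]

private theorem val_gg (z : List ℕ) {A : List (Fin 3)} (h2 : (2 : Fin 3) ∉ A) :
    val (gg z) A = A.map Fin.val := by
  induction A with
  | nil => rfl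
  | cons c A ih =>
    have h1 : val (gg z) (c :: A) = gg z c ++ val (gg z) A := by
      unfold val
      rw [List.flatMap_cons]
    rw [h1, ih (fun hh => h2 (List.mem_cons_of_mem _ hh))]
    fin_cases c
    · rfl
    · rfl
    · exact absurd List.mem_cons_self h2

private theorem val_two (z : List ℕ) : val (gg z) [2] = z := by
  unfold val
  simp [gg]

theorem chain_word (A : List (Fin 3)) (h2 : (2 : Fin 3) ∉ A) (h0 : (0 : Fin 3) ∈ A) (h1 : (1 : Fin 3) ∈ A) :
    ∃ E : Fin 7 → List (Fin 3) × List (Fin 3), E 0 = (A ++ [2], [2] ++ A) ∧ Decreasing ℕ 7 E := by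
  obtain ⟨B, c, hAB⟩ : ∃ B c, A = B ++ [c] := by
    rcases List.eq_nil_or_concat A with h | ⟨B, c, h⟩
    · rw [h] at h0
      cases h0
    · exact ⟨B, c, by rw [h, List.concat_eq_append]⟩
  have hB2 : (2 : Fin 3) ∉ B := fun hh => h2 (hAB ▸ List.mem_append_left _ hh)
  have hc2 : (2 : Fin 3) ∉ [c] := fun hh => h2 (hAB ▸ List.mem_append_right _ hh)
  set a : List ℕ := A.map Fin.val with ha
  set b : List ℕ := B.map Fin.val with hb
  have hab : a = b ++ [c.val] := by rw [ha, hAB, List.map_append]; rfl
  have h0a : (0 : ℕ) ∈ a := List.mem_map.2 ⟨0, h0, rfl⟩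
  have h1a : (1 : ℕ) ∈ a := List.mem_map.2 ⟨1, h1, rfl⟩
  have hvA : ∀ z, val (gg z) A = a := fun z => val_gg z h2
  have hvB : ∀ z, val (gg z) B = b := fun z => val_gg z hB2
  have hvc : ∀ z, val (gg z) [c] = [c.val] := fun z => val_gg z hc2
  have hx : ∀ z, val (gg z) [0] = [0] := fun z => by unfold val; simp [gg]
  have hy : ∀ z, val (gg z) [1] = [1] := fun z => by unfold val; simp [gg]
  -- the first three equations at `gg z`
  have s0 : ∀ z, Solves (gg z) (A ++ [2], [2] ++ A) ↔ a ++ z = z ++ a := by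
    intro z
    unfold Solves
    simp only [val_append, hvA, val_two]
  have s1 : ∀ z, Solves (gg z) (A ++ (B ++ ([2] ++ ([c] ++ [2]))), [2] ++ (B ++ ([2] ++ ([c] ++ A)))) ↔
      a ++ (b ++ (z ++ ([c.val] ++ z))) = z ++ (b ++ (z ++ ([c.val] ++ a))) := by
    intro z
    unfold Solves
    simp only [val_append, hvA, hvB, hvc, val_two]
  have s2 : ∀ z, Solves (gg z) ([0] ++ [2], [2] ++ [0]) ↔ [0] ++ z = z ++ [0] := by
    intro z
    unfold Solves
    simp only [val_append, hx, val_two]
  have s3 : ∀ z, ¬ Solves (gg z) ([0] ++ [1], [1] ++ [0]) := by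
    intro z
    unfold Solves
    simp only [val_append, hx, hy]
    decide
  have hn0 : ¬ a ++ [0] = [0] ++ a := fun h => absurd (comm_single h 1 h1a) (by decide)
  have hnc : ¬ b ++ [c.val] = [c.val] ++ b := by
    intro h
    have h3 := comm_single h
    have e0 : (0 : ℕ) = c.val := by
      rw [hab] at h0a
      rcases List.mem_append.1 h0a with h4 | h4
      · exact h3 0 h4
      · simpa using h4
    have e1 : (1 : ℕ) = c.val := by
      rw [hab] at h1a
      rcases List.mem_append.1 h1a with h4 | h4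
      · exact h3 1 h4
      · simpa using h4
    omega
  refine ⟨![(A ++ [2], [2] ++ A), (A ++ (B ++ ([2] ++ ([c] ++ [2]))), [2] ++ (B ++ ([2] ++ ([c] ++ A)))),
    ([0] ++ [2], [2] ++ [0]), ([0] ++ [1], [1] ++ [0]), ([0], []), ([1], []), ([2], [])], rfl, ?_⟩
  have p0 : (A ++ [2]).Perm ([2] ++ A) := List.perm_append_comm
  have p1 : (A ++ (B ++ ([2] ++ ([c] ++ [2])))).Perm ([2] ++ (B ++ ([2] ++ ([c] ++ A)))) := by
    have q1 : (B ++ ([2] ++ ([c] ++ [2]))) = (B ++ ([2] ++ [c])) ++ [2] := by simp
    have q2 : ([2] ++ (B ++ ([2] ++ ([c] ++ A)))) = [2] ++ ((B ++ ([2] ++ [c])) ++ A) := by simp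
    rw [q1, q2]
    refine List.perm_append_comm.trans ?_
    rw [List.append_assoc]
    refine List.perm_append_comm_assoc _ _ _ |>.trans ?_
    rfl
  have p2 : ([0] ++ [2] : List (Fin 3)).Perm ([2] ++ [0]) := List.perm_append_comm
  have p3 : ([0] ++ [1] : List (Fin 3)).Perm ([1] ++ [0]) := List.perm_append_comm
  intro i
  fin_cases i
  · refine ⟨gg [0], fun j hj => absurd hj (by simp), ?_⟩
    show ¬ Solves (gg [0]) (A ++ [2], [2] ++ A)
    rw [s0]
    exact hn0
  · refine ⟨gg (a ++ a), fun j hj => ?_, ?_⟩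
    · have : j = 0 := by
        apply Fin.ext
        have := Fin.lt_def.1 hj
        simp at this
        simpa using this
      subst this
      show Solves (gg (a ++ a)) (A ++ [2], [2] ++ A)
      rw [s0]
      simp
    · show ¬ Solves (gg (a ++ a)) (A ++ (B ++ ([2] ++ ([c] ++ [2]))), [2] ++ (B ++ ([2] ++ ([c] ++ A))))
      rw [s1]
      intro he
      have h3 : b ++ (a ++ (a ++ ([c.val] ++ (a ++ a)))) = a ++ (b ++ (a ++ (a ++ ([c.val] ++ a)))) := by
        have h4 : a ++ (b ++ (a ++ (a ++ ([c.val] ++ (a ++ a))))) = a ++ (a ++ (b ++ (a ++ (a ++ ([c.val] ++ a))))) := by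
          simpa using he
        exact List.append_cancel_left h4
      have h5 : (b ++ a) ++ (a ++ ([c.val] ++ (a ++ a))) = (a ++ b) ++ (a ++ (a ++ ([c.val] ++ a))) := by
        simpa using h3
      have h6 := (List.append_inj h5 (by simp [Nat.add_comm])).1
      apply hnc
      rw [hab] at h6
      have h7 : b ++ (b ++ [c.val]) = b ++ ([c.val] ++ b) := by simpa using h6
      exact List.append_cancel_left h7
  · refine ⟨gg a, fun j hj => ?_, ?_⟩
    · have hj' : j.val < 2 := Fin.lt_def.1 hj
      have : j = 0 ∨ j = 1 := by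
        rcases (by omega : j.val = 0 ∨ j.val = 1) with h | h
        · exact Or.inl (Fin.ext h)
        · exact Or.inr (Fin.ext h)
      rcases this with rfl | rfl
      · show Solves (gg a) (A ++ [2], [2] ++ A)
        rw [s0]
      · show Solves (gg a) (A ++ (B ++ ([2] ++ ([c] ++ [2]))), [2] ++ (B ++ ([2] ++ ([c] ++ A))))
        rw [s1]
    · show ¬ Solves (gg a) ([0] ++ [2], [2] ++ [0])
      rw [s2]
      exact fun h => hn0 h.symm
  · refine ⟨gg [], fun j hj => ?_, ?_⟩
    · have hj' : j.val < 3 := Fin.lt_def.1 hj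
      have : j = 0 ∨ j = 1 ∨ j = 2 := by
        rcases (by omega : j.val = 0 ∨ j.val = 1 ∨ j.val = 2) with h | h | h
        · exact Or.inl (Fin.ext h)
        · exact Or.inr (Or.inl (Fin.ext h))
        · exact Or.inr (Or.inr (Fin.ext h))
      rcases this with rfl | rfl | rfl
      · show Solves (gg []) (A ++ [2], [2] ++ A)
        rw [s0]
        simp
      · show Solves (gg []) (A ++ (B ++ ([2] ++ ([c] ++ [2]))), [2] ++ (B ++ ([2] ++ ([c] ++ A))))
        rw [s1, hab]
        simp
      · show Solves (gg []) ([0] ++ [2], [2] ++ [0])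
        rw [s2]
        rfl
    · exact s3 []
  · refine ⟨fun c => List.replicate ((![1, 1, 1] : Fin 3 → ℕ) c) 0, fun j hj => ?_, ?_⟩
    · have hj' : j.val < 4 := Fin.lt_def.1 hj
      have : j = 0 ∨ j = 1 ∨ j = 2 ∨ j = 3 := by
        rcases (by omega : j.val = 0 ∨ j.val = 1 ∨ j.val = 2 ∨ j.val = 3) with h | h | h | h
        · exact Or.inl (Fin.ext h)
        · exact Or.inr (Or.inl (Fin.ext h))
        · exact Or.inr (Or.inr (Or.inl (Fin.ext h)))
        · exact Or.inr (Or.inr (Or.inr (Fin.ext h)))
      rcases this with rfl | rfl | rfl | rfl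
      · exact solves_perm _ p0
      · exact solves_perm _ p1
      · exact solves_perm _ p2
      · exact solves_perm _ p3
    · show ¬ (val _ [0] = val _ [])
      unfold val
      decide
  · refine ⟨fun c => List.replicate ((![0, 1, 1] : Fin 3 → ℕ) c) 0, fun j hj => ?_, ?_⟩
    · have hj' : j.val < 5 := Fin.lt_def.1 hj
      have : j = 0 ∨ j = 1 ∨ j = 2 ∨ j = 3 ∨ j = 4 := by
        rcases (by omega : j.val = 0 ∨ j.val = 1 ∨ j.val = 2 ∨ j.val = 3 ∨ j.val = 4) with h | h | h | h | h
        · exact Or.inl (Fin.ext h)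
        · exact Or.inr (Or.inl (Fin.ext h))
        · exact Or.inr (Or.inr (Or.inl (Fin.ext h)))
        · exact Or.inr (Or.inr (Or.inr (Or.inl (Fin.ext h))))
        · exact Or.inr (Or.inr (Or.inr (Or.inr (Fin.ext h))))
      rcases this with rfl | rfl | rfl | rfl | rfl
      · exact solves_perm _ p0
      · exact solves_perm _ p1
      · exact solves_perm _ p2
      · exact solves_perm _ p3
      · show val _ [0] = val _ []
        unfold val
        decide
    · show ¬ (val _ [1] = val _ [])
      unfold val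
      decide
  · refine ⟨fun c => List.replicate ((![0, 0, 1] : Fin 3 → ℕ) c) 0, fun j hj => ?_, ?_⟩
    · have hj' : j.val < 6 := Fin.lt_def.1 hj
      have : j = 0 ∨ j = 1 ∨ j = 2 ∨ j = 3 ∨ j = 4 ∨ j = 5 := by
        rcases (by omega : j.val = 0 ∨ j.val = 1 ∨ j.val = 2 ∨ j.val = 3 ∨ j.val = 4 ∨ j.val = 5) with
          h | h | h | h | h | h
        · exact Or.inl (Fin.ext h)
        · exact Or.inr (Or.inl (Fin.ext h))
        · exact Or.inr (Or.inr (Or.inl (Fin.ext h)))
        · exact Or.inr (Or.inr (Or.inr (Or.inl (Fin.ext h))))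
        · exact Or.inr (Or.inr (Or.inr (Or.inr (Or.inl (Fin.ext h)))))
        · exact Or.inr (Or.inr (Or.inr (Or.inr (Or.inr (Fin.ext h)))))
      rcases this with rfl | rfl | rfl | rfl | rfl | rfl
      · exact solves_perm _ p0
      · exact solves_perm _ p1
      · exact solves_perm _ p2
      · exact solves_perm _ p3
      · show val _ [0] = val _ []
        unfold val
        decide
      · show val _ [1] = val _ []
        unfold val
        decide
    · show ¬ (val _ [2] = val _ [])
      unfold val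
      decide

end Pool.Agent.H70.WE
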