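import Pool.Agent.H70.WE.Typ

/-!
# [H70 WP Code] Words which do not commute form a code

If `h 0, h 1` do not commute, then `val h` is injective on the words in `x = 0, y = 1` (no `z = 2`): from `rel_comm` (H70/WE/Wd.lean) with
the Boolean words (`true` for `0`, `false` for `1`).
-/

set_option autoImplicit false

namespace Pool.Agent.H70.WE

private theorem cd_val {α : Type} (h : Fin 3 → List α) (U : List (Fin 3)) (hU : (2 : Fin 3) ∉ U) :
    (U.map fun c => decide (c = 0)).flatMap (fun c => if c then h 0 else h 1) = val h U := by
  induction U with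
  | nil => rfl
  | cons c U ih =>
    have h1 : c ≠ 2 := fun hc => hU (by rw [hc]; exact List.mem_cons_self)
    have h2 : (2 : Fin 3) ∉ U := fun hm => hU (List.mem_cons_of_mem _ hm)
    have h3 := ih h2
    unfold val at h3 ⊢
    rw [List.map_cons, List.flatMap_cons, List.flatMap_cons, h3]
    congr 1
    fin_cases c
    · rfl
    · rfl
    · exact absurd rfl h1

private theorem cd_inj (U : List (Fin 3)) : ∀ V : List (Fin 3), (2 : Fin 3) ∉ U → (2 : Fin 3) ∉ V →
    (U.map fun c => decide (c = 0)) = (V.map fun c => decide (c = 0)) → U = V := by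
  induction U with
  | nil =>
    intro V _ _ h
    cases V with
    | nil => rfl
    | cons d V => simp at h
  | cons c U ih =>
    intro V hU hV h
    cases V with
    | nil => simp at h
    | cons d V =>
      rw [List.map_cons, List.map_cons, List.cons.injEq] at h
      have h1 : c ≠ 2 := fun hc => hU (by rw [hc]; exact List.mem_cons_self)
      have h1' : d ≠ 2 := fun hc => hV (by rw [hc]; exact List.mem_cons_self)
      have h2 := ih V (fun hm => hU (List.mem_cons_of_mem _ hm)) (fun hm => hV (List.mem_cons_of_mem _ hm)) h.2
      have h3 : (c = 0) ↔ (d = 0) := by simpa using h.1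
      have h4 : c = d := by omega
      rw [h2, h4]

theorem val_inj {α : Type} (h : Fin 3 → List α) (hc : h 0 ++ h 1 ≠ h 1 ++ h 0) {U V : List (Fin 3)}
    (hU : (2 : Fin 3) ∉ U) (hV : (2 : Fin 3) ∉ V) (he : val h U = val h V) : U = V := by
  by_contra hne
  refine hc (rel_comm (h 0) (h 1) (U.map fun c => decide (c = 0)) (V.map fun c => decide (c = 0))
    (fun hm => hne (cd_inj U V hU hV hm)) ?_)
  rw [cd_val h U hU, cd_val h V hV, he]

end Pool.Agent.H70.WE
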