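import Pool.Agent.H70.WE.Typ

/-!
# [H70 WP LS] The theorem of Lyndon and Schützenberger

`x^p y^q = w^r` with `p, q, r ≥ 2` implies `x y = y x`.

Proof (helper13), by induction on the length of `w^r`. If `|x| + |w| ≤ p |x|`, then `x` and `w` commute (Fine and Wilf); the same for `y`. Otherwise
`(p - 1) |x| < |w|`, `(q - 1) |y| < |w|`, so `r |w| < 4 |w|`, `r ≤ 3`.
`r = 2`: let `|w| ≤ p |x|` (else take the mirror image). `w = x^(p-1) s`, `x = s t`, `w = t y^q`, so `t^2 y^q = t w = (t s)^p`, shorter.
`r = 3`: `w = x^(p-1) s`, `x = s t`, `w = s1 y^(q-1)`, `y = t1 s1`, `w = t t1 = s (t s)^(p-1) = s1 (t1 s1)^(q-1)`. If `p, q ≥ 3`: `s = []` by lengths. If `p = 2`, `q ≥ 3`: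
`s t` has the periods `|s|` and `|s1 t1|`, and is long enough. If `p = q = 2`: a short computation with `s = s1 b = b' s1`, `t = s1 t''`.
-/

set_option autoImplicit false

namespace Pool.Agent.H70.WE

private theorem ls_pow_one {α : Type} (y : List α) : pow y 1 = y := by
  unfold pow
  simp

private theorem ls_pow_succ {α : Type} (y : List α) (n : ℕ) : pow y (n + 1) = pow y n ++ y := by
  rw [pow_add', ls_pow_one]

private theorem ls_pow_succ' {α : Type} (y : List α) (n : ℕ) : pow y (n + 1) = y ++ pow y n := by
  rw [Nat.add_comm, pow_add', ls_pow_one]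

private theorem ls_pow_reverse {α : Type} (w : List α) (n : ℕ) :
    (pow w n).reverse = pow w.reverse n := by
  induction n with
  | zero => rfl
  | succ n ih => rw [ls_pow_succ, List.reverse_append, ih, ls_pow_succ']

private theorem ls_cm_pow {α : Type} {u v : List α} (h : u ++ v = v ++ u) (n : ℕ) :
    pow u n ++ v = v ++ pow u n := by
  induction n with
  | zero => simp [pow_zero']
  | succ n ih =>
    rw [ls_pow_succ, List.append_assoc, h, ← List.append_assoc, ih, List.append_assoc]

private theorem ls_rot {α : Type} (s t : List α) (n : ℕ) :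
    t ++ pow (s ++ t) n = pow (t ++ s) n ++ t := by
  induction n with
  | zero => simp [pow_zero']
  | succ n ih =>
    rw [ls_pow_succ, ← List.append_assoc, ih, ls_pow_succ]
    simp only [List.append_assoc]

private theorem ls_fm_true {α : Type} (p q : List α) (n : ℕ) :
    (List.replicate n true).flatMap (fun c => if c then p else q) = pow p n := by
  induction n with
  | zero => rfl
  | succ n ih =>
    rw [List.replicate_succ, List.flatMap_cons, ih, ls_pow_succ']
    simp

private theorem ls_fm_false {α : Type} (p q : List α) (n : ℕ) :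
    (List.replicate n false).flatMap (fun c => if c then p else q) = pow q n := by
  induction n with
  | zero => rfl
  | succ n ih =>
    rw [List.replicate_succ, List.flatMap_cons, ih, ls_pow_succ']
    simp

private theorem ls_root {α : Type} {u v : List α} {p c : ℕ} (hp : 1 ≤ p) (h : pow u p = pow v c) :
    u ++ v = v ++ u := by
  refine rel_comm u v (List.replicate p true) (List.replicate c false) ?_ ?_
  · intro he
    obtain ⟨p', rfl⟩ : ∃ p', p = p' + 1 := ⟨p - 1, by omega⟩
    have h1 : true ∈ List.replicate c false := by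
      rw [← he]
      simp
    have h2 := List.eq_of_mem_replicate h1
    exact absurd h2 (by decide)
  · rw [ls_fm_true, ls_fm_false, h]

/-- commuting is transitive through a non empty word -/
private theorem ls_trans {α : Type} {u v z : List α} (hu : u ≠ []) (h1 : u ++ v = v ++ u)
    (h2 : u ++ z = z ++ u) : v ++ z = z ++ v := by
  obtain ⟨ρ, a, b, ha, hb⟩ := comm_pow u v h1
  change u = pow ρ a at ha
  change v = pow ρ b at hb
  have ha0 : 1 ≤ a := by
    rcases Nat.eq_zero_or_pos a with h0 | h0
    · exact absurd (by rw [ha, h0]; rfl) hu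
    · exact h0
  have h3 : ρ ++ z = z ++ ρ := by
    refine rel_comm ρ z (List.replicate a true ++ [false]) ([false] ++ List.replicate a true) ?_ ?_
    · obtain ⟨a', rfl⟩ : ∃ a', a = a' + 1 := ⟨a - 1, by omega⟩
      rw [List.replicate_succ]
      simp
    · rw [List.flatMap_append, List.flatMap_append, ls_fm_true, ← ha]
      simpa using h2
  rw [hb]
  exact ls_cm_pow h3 b

private theorem ls_cl {α : Type} {x y w : List α} {p q r : ℕ} (hq : 1 ≤ q)
    (h : pow x p ++ pow y q = pow w r) (hc : x ++ w = w ++ x) : x ++ y = y ++ x := by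
  obtain ⟨ρ, a, b, ha, hb⟩ := comm_pow x w hc
  change x = pow ρ a at ha
  change w = pow ρ b at hb
  have h1 : pow ρ (a * p) ++ pow y q ++ pow ρ 0 = pow ρ (b * r) := by
    rw [pow_zero', List.append_nil, pow_mul', pow_mul', ← ha, ← hb, h]
  obtain ⟨n, hn⟩ := mid_pow h1
  have h2 := ls_root hq hn
  rw [ha]
  exact ls_cm_pow h2.symm a

private theorem ls_cl' {α : Type} {x y w : List α} {p q r : ℕ} (hp : 1 ≤ p)
    (h : pow x p ++ pow y q = pow w r) (hc : y ++ w = w ++ y) : x ++ y = y ++ x := by
  obtain ⟨ρ, a, b, ha, hb⟩ := comm_pow y w hc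
  change y = pow ρ a at ha
  change w = pow ρ b at hb
  have h1 : pow ρ 0 ++ pow x p ++ pow ρ (a * q) = pow ρ (b * r) := by
    rw [pow_zero', List.nil_append, pow_mul', pow_mul', ← ha, ← hb, h]
  obtain ⟨n, hn⟩ := mid_pow h1
  have h2 := ls_root hp hn
  rw [ha]
  exact (ls_cm_pow h2.symm a).symm

/-- Fine and Wilf -/
private theorem ls_fw {α : Type} {u x w : List α} (h1 : u <+: x ++ u) (h2 : u <+: w ++ u)
    (hl : x.length + w.length ≤ u.length) : x ++ w = w ++ x := by
  have hx : x <+: u :=
    List.prefix_of_prefix_length_le (List.prefix_append x u) h1 (by omega)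
  have hw : w <+: u :=
    List.prefix_of_prefix_length_le (List.prefix_append w u) h2 (by omega)
  have a1 : x ++ w <+: u :=
    List.prefix_of_prefix_length_le ((List.prefix_append_right_inj x).2 hw) h1
      (by rw [List.length_append]; omega)
  have a2 : w ++ x <+: u :=
    List.prefix_of_prefix_length_le ((List.prefix_append_right_inj w).2 hx) h2
      (by rw [List.length_append]; omega)
  have hl2 : (x ++ w).length = (w ++ x).length := by
    rw [List.length_append, List.length_append, Nat.add_comm]
  exact (List.prefix_of_prefix_length_le a1 a2 hl2.le).eq_of_length hl2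

private theorem ls_a {α : Type} {x y w : List α} {p q r : ℕ} (h : pow x p ++ pow y q = pow w r)
    (hl : x.length + w.length ≤ p * x.length) : x ++ w = w ++ x := by
  have h1 : pow x p <+: pow w r := by
    rw [← h]
    exact List.prefix_append _ _
  refine ls_fw (u := pow x p) ?_ ?_ ?_
  · rw [← ls_pow_succ', ls_pow_succ]
    exact List.prefix_append _ _
  · have h2 : pow x p <+: w ++ pow w r := by
      rw [← ls_pow_succ', ls_pow_succ]
      exact h1.trans (List.prefix_append _ _)
    exact List.prefix_of_prefix_length_le h2 ((List.prefix_append_right_inj w).2 h1) (by simp)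
  · rw [pow_length]
    exact hl

private theorem ls_rev {α : Type} {x y w : List α} {p q r : ℕ}
    (h : pow x p ++ pow y q = pow w r) :
    pow y.reverse q ++ pow x.reverse p = pow w.reverse r := by
  have h1 := congrArg List.reverse h
  rwa [List.reverse_append, ls_pow_reverse, ls_pow_reverse, ls_pow_reverse] at h1

private theorem ls_cm_rev {α : Type} {u v : List α}
    (h : u.reverse ++ v.reverse = v.reverse ++ u.reverse) : u ++ v = v ++ u := by
  have h1 := congrArg List.reverse h
  rw [List.reverse_append, List.reverse_append, List.reverse_reverse, List.reverse_reverse] at h1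
  exact h1.symm

private theorem ls_dec {α : Type} {x y w : List α} {P q R : ℕ}
    (h : pow x (P + 1) ++ pow y q = pow w (R + 1)) (h1 : P * x.length ≤ w.length)
    (h2 : w.length ≤ (P + 1) * x.length) :
    ∃ s t, x = s ++ t ∧ w = pow x P ++ s ∧ t ++ pow y q = pow w R := by
  have a1 : w <+: pow x (P + 1) := by
    refine List.prefix_of_prefix_length_le (l₃ := pow w (R + 1)) ?_ ?_ ?_
    · rw [ls_pow_succ']
      exact List.prefix_append _ _
    · rw [← h]
      exact List.prefix_append _ _
    · rw [pow_length]
      exact h2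
  have a2 : pow x P <+: w := by
    refine List.prefix_of_prefix_length_le (l₃ := pow x (P + 1)) ?_ a1 ?_
    · rw [ls_pow_succ]
      exact List.prefix_append _ _
    · rw [pow_length]
      exact h1
  obtain ⟨s, hs⟩ := a2
  have a3 : s <+: x := by
    rw [← hs, ls_pow_succ] at a1
    exact (List.prefix_append_right_inj _).1 a1
  obtain ⟨t, ht⟩ := a3
  refine ⟨s, t, ht.symm, hs.symm, ?_⟩
  have e : w ++ (t ++ pow y q) = w ++ pow w R := by
    calc w ++ (t ++ pow y q) = pow x P ++ (s ++ t) ++ pow y q := by
          rw [← hs]; simp only [List.append_assoc]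
      _ = pow x (P + 1) ++ pow y q := by rw [ht, ← ls_pow_succ]
      _ = pow w (R + 1) := h
      _ = w ++ pow w R := ls_pow_succ' w R
  exact List.append_cancel_left e

private theorem ls_caseA {α : Type} {w s t s1 t1 : List α} {Q : ℕ} (hQ : 2 ≤ Q)
    (h1 : w = t ++ t1) (h2 : w = s ++ (t ++ s)) (h3 : w = s1 ++ pow (t1 ++ s1) Q) :
    s ++ t = t ++ s := by
  have l1 := congrArg List.length h1
  have l2 := congrArg List.length h2
  have l3 := congrArg List.length h3
  simp only [List.length_append, pow_length] at l1 l2 l3
  -- `t` is a prefix of `s t`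
  have a1 : t <+: s ++ t := by
    refine List.prefix_of_prefix_length_le (l₃ := w) ?_ ?_ (by simp)
    · rw [h1]
      exact List.prefix_append _ _
    · rw [h2, ← List.append_assoc]
      exact List.prefix_append _ _
  have a2 : s ++ t <+: s ++ (s ++ t) := (List.prefix_append_right_inj s).2 a1
  have a3 : s ++ t <+: w := by
    rw [h2, ← List.append_assoc]
    exact List.prefix_append _ _
  have hY : w = pow (s1 ++ t1) Q ++ s1 := by rw [h3, ls_rot]
  have a4 : w <+: (s1 ++ t1) ++ w := by
    have e : (s1 ++ t1) ++ w = w ++ (t1 ++ s1) := by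
      calc (s1 ++ t1) ++ w = ((s1 ++ t1) ++ pow (s1 ++ t1) Q) ++ s1 := by
            rw [hY]; simp only [List.append_assoc]
        _ = (pow (s1 ++ t1) Q ++ (s1 ++ t1)) ++ s1 := by rw [← ls_pow_succ', ls_pow_succ]
        _ = w ++ (t1 ++ s1) := by rw [hY]; simp only [List.append_assoc]
    rw [e]
    exact List.prefix_append _ _
  have a5 : s ++ t <+: (s1 ++ t1) ++ (s ++ t) :=
    List.prefix_of_prefix_length_le (a3.trans a4) ((List.prefix_append_right_inj _).2 a3)
      (by simp only [List.length_append]; omega)
  have hlen : s.length + (s1 ++ t1).length ≤ (s ++ t).length := by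
    rw [List.length_append, List.length_append]
    obtain ⟨k, rfl⟩ : ∃ k, Q = k + 2 := ⟨Q - 2, by omega⟩
    nlinarith [Nat.zero_le (k * (t1.length + s1.length))]
  have c1 : s ++ (s1 ++ t1) = (s1 ++ t1) ++ s := ls_fw a2 a5 hlen
  -- `w` has the period `|s|`
  have c2 : pow (s1 ++ t1) (Q + 1) ++ s = s ++ pow (s1 ++ t1) (Q + 1) := ls_cm_pow c1.symm _
  have b1 : w <+: pow (s1 ++ t1) (Q + 1) := by
    rw [hY, ls_pow_succ]
    exact (List.prefix_append_right_inj _).2 (List.prefix_append _ _)
  have b2 : w <+: s ++ w := by
    refine List.prefix_of_prefix_length_le (l₃ := s ++ pow (s1 ++ t1) (Q + 1)) ?_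
      ((List.prefix_append_right_inj _).2 b1) (by simp)
    rw [← c2]
    exact b1.trans (List.prefix_append _ _)
  have b3 : t ++ s <+: s ++ (t ++ s) := by
    rw [h2] at b2
    exact (List.prefix_append_right_inj _).1 b2
  have b4 : s ++ t <+: s ++ (t ++ s) := by
    rw [← List.append_assoc]
    exact List.prefix_append _ _
  have hl2 : (s ++ t).length = (t ++ s).length := by
    rw [List.length_append, List.length_append, Nat.add_comm]
  exact (List.prefix_of_prefix_length_le b4 b3 hl2.le).eq_of_length hl2

private theorem ls_caseB {α : Type} {w s t s1 t1 : List α}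
    (h1 : w = t ++ t1) (h2 : w = s ++ (t ++ s)) (h3 : w = s1 ++ (t1 ++ s1))
    (hle : s1.length ≤ s.length) : s ++ t = t ++ s := by
  have l1 := congrArg List.length h1
  have l2 := congrArg List.length h2
  have l3 := congrArg List.length h3
  simp only [List.length_append] at l1 l2 l3
  obtain ⟨b, hb⟩ : s1 <+: s := by
    refine List.prefix_of_prefix_length_le (l₃ := w) ?_ ?_ hle
    · rw [h3]
      exact List.prefix_append _ _
    · rw [h2]
      exact List.prefix_append _ _
  obtain ⟨b', hb'⟩ : s1 <:+ s := by
    refine List.suffix_of_suffix_length_le (l₃ := w) ?_ ?_ hle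
    · rw [h3, ← List.append_assoc]
      exact List.suffix_append _ _
    · rw [h2, ← List.append_assoc]
      exact List.suffix_append _ _
  obtain ⟨t2, ht2⟩ : s1 <+: t := by
    refine List.prefix_of_prefix_length_le (l₃ := w) ?_ ?_ (by omega)
    · rw [h3]
      exact List.prefix_append _ _
    · rw [h1]
      exact List.prefix_append _ _
  have lb := congrArg List.length hb
  have lb' := congrArg List.length hb'
  have lt2 := congrArg List.length ht2
  simp only [List.length_append] at lb lb' lt2
  -- `t1 = b t b'`
  have e1 : t1 = b ++ (t ++ b') := by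
    have e : s1 ++ (t1 ++ s1) = s1 ++ ((b ++ (t ++ b')) ++ s1) := by
      rw [← h3, h2]
      calc s ++ (t ++ s) = (s1 ++ b) ++ (t ++ (b' ++ s1)) := by rw [hb, hb']
        _ = _ := by simp only [List.append_assoc]
    exact List.append_cancel_right (List.append_cancel_left e)
  have e2 : (t2 ++ b) ++ ((s1 ++ t2) ++ b') = (b ++ s1) ++ ((t2 ++ b') ++ s1) := by
    have e : s1 ++ ((t2 ++ b) ++ ((s1 ++ t2) ++ b')) = s1 ++ ((b ++ s1) ++ ((t2 ++ b') ++ s1)) := by
      calc s1 ++ ((t2 ++ b) ++ ((s1 ++ t2) ++ b')) = (s1 ++ t2) ++ (b ++ ((s1 ++ t2) ++ b')) := by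
            simp only [List.append_assoc]
        _ = t ++ t1 := by rw [e1, ht2]
        _ = s ++ (t ++ s) := by rw [← h1, h2]
        _ = (s1 ++ b) ++ ((s1 ++ t2) ++ (b' ++ s1)) := by rw [hb, hb', ht2]
        _ = _ := by simp only [List.append_assoc]
    exact List.append_cancel_left e
  obtain ⟨e3, e4⟩ := List.append_inj e2 (by rw [List.length_append, List.length_append]; omega)
  -- `s1 t2 b' = t2 b' s1 = t2 s1 b`
  have e5 : (s1 ++ t2) ++ b' = (t2 ++ s1) ++ b := by
    rw [e4, List.append_assoc, hb', ← hb, List.append_assoc]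
  obtain ⟨e6, e7⟩ := List.append_inj e5 (by rw [List.length_append, List.length_append, Nat.add_comm])
  by_cases hs1 : s1 = []
  · have ht : t = [] := by
      apply List.eq_nil_of_length_eq_zero
      rw [hs1] at l3 lt2
      simp only [List.length_nil] at l3 lt2
      omega
    rw [ht]
    simp
  have c1 : s1 ++ b = b ++ s1 := by rw [hb, ← hb', e7]
  have c2 : b ++ t2 = t2 ++ b := ls_trans hs1 c1 e6
  rw [← hb, ← ht2]
  calc (s1 ++ b) ++ (s1 ++ t2) = s1 ++ ((b ++ s1) ++ t2) := by simp only [List.append_assoc]
    _ = s1 ++ (s1 ++ (b ++ t2)) := by rw [← c1]; simp only [List.append_assoc]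
    _ = s1 ++ ((s1 ++ t2) ++ b) := by rw [c2]; simp only [List.append_assoc]
    _ = s1 ++ ((t2 ++ s1) ++ b) := by rw [e6]
    _ = (s1 ++ t2) ++ (s1 ++ b) := by simp only [List.append_assoc]

private theorem ls_e3rev {α : Type} {w s1 t1 : List α} {Q : ℕ}
    (h3 : w = s1 ++ pow (t1 ++ s1) Q) :
    w.reverse = s1.reverse ++ pow (t1.reverse ++ s1.reverse) Q := by
  rw [h3, List.reverse_append, ls_pow_reverse, List.reverse_append, ls_rot]

private theorem ls_e3 {α : Type} {w s t s1 t1 : List α} {P Q : ℕ} (hP : 1 ≤ P) (hQ : 1 ≤ Q)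
    (h1 : w = t ++ t1) (h2 : w = s ++ pow (t ++ s) P) (h3 : w = s1 ++ pow (t1 ++ s1) Q) :
    s ++ t = t ++ s ∨ s1 ++ t1 = t1 ++ s1 := by
  have h1' : w.reverse = t1.reverse ++ t.reverse := by rw [h1, List.reverse_append]
  have h2' := ls_e3rev h2
  have h3' := ls_e3rev h3
  rcases Nat.lt_or_ge P 2 with hP2 | hP2
  · obtain rfl : P = 1 := by omega
    rcases Nat.lt_or_ge Q 2 with hQ2 | hQ2
    · obtain rfl : Q = 1 := by omega
      rw [ls_pow_one] at h2 h3 h2' h3'
      rcases Nat.le_total s1.length s.length with hle | hle
      · exact Or.inl (ls_caseB h1 h2 h3 hle)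
      · right
        apply ls_cm_rev
        exact ls_caseB h1' h3' h2' (by simpa using hle)
    · rw [ls_pow_one] at h2
      exact Or.inl (ls_caseA hQ2 h1 h2 h3)
  · rcases Nat.lt_or_ge Q 2 with hQ2 | hQ2
    · obtain rfl : Q = 1 := by omega
      rw [ls_pow_one] at h3'
      right
      apply ls_cm_rev
      exact ls_caseA hP2 h1' h3' h2'
    · left
      have l1 := congrArg List.length h1
      have l2 := congrArg List.length h2
      have l3 := congrArg List.length h3
      simp only [List.length_append, pow_length] at l1 l2 l3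
      have hs : s = [] := by
        apply List.eq_nil_of_length_eq_zero
        obtain ⟨k, rfl⟩ : ∃ k, P = k + 2 := ⟨P - 2, by omega⟩
        obtain ⟨m, rfl⟩ : ∃ m, Q = m + 2 := ⟨Q - 2, by omega⟩
        nlinarith [Nat.zero_le (k * (t.length + s.length)),
          Nat.zero_le (m * (t1.length + s1.length))]
      rw [hs]
      simp

private theorem ls_main {α : Type} : ∀ (N : ℕ) (x y w : List α) (p q r : ℕ), 2 ≤ p → 2 ≤ q →
    2 ≤ r → r * w.length ≤ N → pow x p ++ pow y q = pow w r → x ++ y = y ++ x := by
  intro N
  induction N using Nat.strong_induction_on with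
  | _ N ih =>
    intro x y w p q r hp hq hr hN h
    -- the case of two squares
    have two : ∀ (x y w : List α) (p q : ℕ), 2 ≤ p → 2 ≤ q → 2 * w.length ≤ N →
        pow x p ++ pow y q = pow w 2 → p * x.length < x.length + w.length →
        w.length ≤ p * x.length → x ++ y = y ++ x := by
      intro x y w p q hp hq hN h h1 h2
      obtain ⟨P, rfl⟩ : ∃ P, p = P + 1 := ⟨p - 1, by omega⟩
      have hx0 : P * x.length < w.length := by
        rw [Nat.add_mul, Nat.one_mul] at h1
        omega
      obtain ⟨s, t, hx, hw, hy⟩ := ls_dec (R := 1) h hx0.le h2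
      rw [ls_pow_one] at hy
      have hlx := congrArg List.length hx
      have hlw := congrArg List.length hy
      rw [List.length_append] at hlx hlw
      have hxw : x.length < w.length := by
        have h3 : 1 * x.length ≤ P * x.length := Nat.mul_le_mul_right _ (by omega)
        omega
      have e1 : pow t 2 ++ pow y q = pow (t ++ s) (P + 1) := by
        calc pow t 2 ++ pow y q = t ++ (t ++ pow y q) := by
              rw [show (2 : ℕ) = 1 + 1 from rfl, ls_pow_succ, ls_pow_one, List.append_assoc]
          _ = t ++ (pow x P ++ s) := by rw [hy, ← hw]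
          _ = (t ++ pow (s ++ t) P) ++ s := by rw [hx, List.append_assoc]
          _ = pow (t ++ s) P ++ (t ++ s) := by rw [ls_rot, List.append_assoc]
          _ = pow (t ++ s) (P + 1) := (ls_pow_succ _ _).symm
      have e1l := congrArg List.length e1
      rw [List.length_append, pow_length, pow_length, pow_length] at e1l
      have hlt : (P + 1) * (t ++ s).length < N := by
        rw [← e1l]
        rw [pow_length] at hlw
        omega
      have hty : t ++ y = y ++ t :=
        ih _ hlt t y (t ++ s) 2 q (P + 1) le_rfl hq hp le_rfl e1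
      -- conclusion
      obtain ⟨ρ, a, b, ha, hb⟩ := comm_pow t y hty
      change t = pow ρ a at ha
      change y = pow ρ b at hb
      have e2 : pow (t ++ s) (P + 1) = pow ρ (a * 2 + b * q) := by
        rw [← e1, pow_add', pow_mul', pow_mul', ← ha, ← hb]
      have e3 : (t ++ s) ++ ρ = ρ ++ (t ++ s) := ls_root (by omega) e2
      have e4 : t ++ ρ = ρ ++ t := by
        rw [ha, ← ls_pow_succ, ls_pow_succ']
      have e5 : ρ ++ s = s ++ ρ := by
        have e6 : t ++ (s ++ ρ) = t ++ (ρ ++ s) := by
          calc t ++ (s ++ ρ) = (t ++ s) ++ ρ := by rw [List.append_assoc]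
            _ = (ρ ++ t) ++ s := by rw [e3, List.append_assoc]
            _ = t ++ (ρ ++ s) := by rw [← e4, List.append_assoc]
        exact (List.append_cancel_left e6).symm
      have e7 : ρ ++ x = x ++ ρ := by
        rw [hx]
        calc ρ ++ (s ++ t) = (ρ ++ s) ++ t := by rw [List.append_assoc]
          _ = s ++ (ρ ++ t) := by rw [e5, List.append_assoc]
          _ = (s ++ t) ++ ρ := by rw [← e4, List.append_assoc]
      rw [hb]
      exact (ls_cm_pow e7 b).symm
    by_cases hA : x.length + w.length ≤ p * x.length
    · exact ls_cl (by omega) h (ls_a h hA)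
    by_cases hB : y.length + w.length ≤ q * y.length
    · have h4 : y.reverse ++ w.reverse = w.reverse ++ y.reverse :=
        ls_a (ls_rev h) (by simpa using hB)
      exact ls_cl' (by omega) h (ls_cm_rev h4)
    rw [Nat.not_le] at hA hB
    have hlen := congrArg List.length h
    rw [List.length_append, pow_length, pow_length, pow_length] at hlen
    have hxw : x.length < w.length := by
      have h3 : 2 * x.length ≤ p * x.length := Nat.mul_le_mul_right _ hp
      omega
    have hyw : y.length < w.length := by
      have h3 : 2 * y.length ≤ q * y.length := Nat.mul_le_mul_right _ hq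
      omega
    have hr3 : r ≤ 3 := by
      by_contra hcon
      have h3 : 4 * w.length ≤ r * w.length := Nat.mul_le_mul_right _ (by omega)
      omega
    rcases (by omega : r = 2 ∨ r = 3) with rfl | rfl
    · rcases Nat.le_total w.length (p * x.length) with h5 | h5
      · exact two x y w p q hp hq hN h hA h5
      · have h6 : w.length ≤ q * y.length := by omega
        have h7 := two y.reverse x.reverse w.reverse q p hq hp (by simpa using hN) (ls_rev h)
          (by simpa using hB) (by simpa using h6)
        exact (ls_cm_rev h7).symm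
    · obtain ⟨P, rfl⟩ : ∃ P, p = P + 1 := ⟨p - 1, by omega⟩
      obtain ⟨Q, rfl⟩ : ∃ Q, q = Q + 1 := ⟨q - 1, by omega⟩
      have hx0 : P * x.length < w.length := by
        rw [Nat.add_mul, Nat.one_mul] at hA
        omega
      have hy0 : Q * y.length < w.length := by
        rw [Nat.add_mul, Nat.one_mul] at hB
        omega
      have hx1 : w.length ≤ (P + 1) * x.length := by omega
      have hy1 : w.length ≤ (Q + 1) * y.length := by omega
      obtain ⟨s, t, hx, hw, hy⟩ := ls_dec (R := 2) h hx0.le hx1
      obtain ⟨s1', t1', hx', hw', _⟩ := ls_dec (R := 2) (ls_rev h) (by simpa using hy0.le)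
        (by simpa using hy1)
      have k1 : y = t1'.reverse ++ s1'.reverse := by
        have := congrArg List.reverse hx'
        rwa [List.reverse_reverse, List.reverse_append] at this
      have k2 : w = s1'.reverse ++ pow y Q := by
        have := congrArg List.reverse hw'
        rwa [List.reverse_reverse, List.reverse_append, ls_pow_reverse, List.reverse_reverse] at this
      have k3 : w = t ++ t1'.reverse := by
        have e : (t ++ t1'.reverse) ++ w = w ++ w := by
          calc (t ++ t1'.reverse) ++ w = t ++ ((t1'.reverse ++ s1'.reverse) ++ pow y Q) := by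
                conv_lhs => rw [k2]
                simp only [List.append_assoc]
            _ = t ++ pow y (Q + 1) := by rw [← k1, ← ls_pow_succ']
            _ = pow w 2 := hy
            _ = w ++ w := by rw [show (2 : ℕ) = 1 + 1 from rfl, ls_pow_succ, ls_pow_one]
        exact (List.append_cancel_right e).symm
      have k4 : w = s ++ pow (t ++ s) P := by
        rw [ls_rot, ← hx]
        exact hw
      have k5 : w = s1'.reverse ++ pow (t1'.reverse ++ s1'.reverse) Q := by
        rw [← k1]
        exact k2
      rcases ls_e3 (by omega) (by omega) k3 k4 k5 with hc | hc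
      · refine ls_cl (by omega) h ?_
        have m1 : s ++ x = x ++ s := by
          rw [hx]
          calc s ++ (s ++ t) = s ++ (t ++ s) := by rw [hc]
            _ = (s ++ t) ++ s := by rw [List.append_assoc]
        rw [hw]
        calc x ++ (pow x P ++ s) = (x ++ pow x P) ++ s := by rw [List.append_assoc]
          _ = pow x P ++ (x ++ s) := by rw [← ls_pow_succ', ls_pow_succ, List.append_assoc]
          _ = (pow x P ++ s) ++ x := by rw [← m1, List.append_assoc]
      · refine ls_cl' (by omega) h ?_
        have m1 : s1'.reverse ++ y = y ++ s1'.reverse := by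
          rw [k1]
          calc s1'.reverse ++ (t1'.reverse ++ s1'.reverse)
              = (s1'.reverse ++ t1'.reverse) ++ s1'.reverse := by rw [List.append_assoc]
            _ = (t1'.reverse ++ s1'.reverse) ++ s1'.reverse := by rw [hc]
        conv_lhs => rw [k2]
        conv_rhs => rw [k2]
        calc y ++ (s1'.reverse ++ pow y Q) = (y ++ s1'.reverse) ++ pow y Q := by
              rw [List.append_assoc]
          _ = s1'.reverse ++ (y ++ pow y Q) := by rw [← m1, List.append_assoc]
          _ = (s1'.reverse ++ pow y Q) ++ y := by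
              rw [← ls_pow_succ', ls_pow_succ, List.append_assoc]

theorem lyndon_sch {α : Type} (x y w : List α) {p q r : ℕ} (hp : 2 ≤ p) (hq : 2 ≤ q) (hr : 2 ≤ r)
    (h : pow x p ++ pow y q = pow w r) : x ++ y = y ++ x :=
  ls_main (r * w.length) x y w p q r hp hq hr le_rfl h

end Pool.Agent.H70.WE
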