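import Pool.Agent.H70.WP.TP
import Pool.Agent.H70.WP.LS
import Pool.Agent.H70.WP.Code
import Pool.Agent.H70.WE.Fin

/-!
# [H70 WP OP] One-parameter families
-/

set_option autoImplicit false

namespace Pool.Agent.H70.WE

variable {α : Type}

/-- `z ↦ z Q`, the unknown `z = 2` becomes `none` -/
def enc (Q U : List (Fin 3)) : List (Option (Fin 3)) :=
  U.flatMap (fun c => if c = 2 then none :: Q.map some else [some c])

theorem evP_append {β : Type} (P : List β) (i : ℕ) (U V : List (Option β)) :
    evP P i (U ++ V) = evP P i U ++ evP P i V := by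
  unfold evP
  rw [List.flatMap_append]

theorem evP_some {β : Type} (P : List β) (i : ℕ) (Q : List β) : evP P i (Q.map some) = Q := by
  induction Q with
  | nil => rfl
  | cons c Q ih =>
    have h1 : evP P i ((c :: Q).map some) = [c] ++ evP P i (Q.map some) := by
      unfold evP
      rw [List.map_cons, List.flatMap_cons]
    rw [h1, ih]
    rfl

theorem val_pow (h : Fin 3 → List α) (P : List (Fin 3)) (n : ℕ) : val h (pow P n) = pow (val h P) n := by
  induction n with
  | zero => rfl
  | succ n ih =>
    rw [pow_add', pow_add', val_append, ih]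
    congr 1
    unfold pow
    simp

theorem evP_enc_cons (P Q : List (Fin 3)) (i : ℕ) (c : Fin 3) (U : List (Fin 3)) :
    evP P i (enc Q (c :: U)) = (if c = 2 then pow P i ++ Q else [c]) ++ evP P i (enc Q U) := by
  have h1 : enc Q (c :: U) = (if c = 2 then none :: Q.map some else [some c]) ++ enc Q U := by
    unfold enc
    rw [List.flatMap_cons]
  rw [h1, evP_append]
  congr 1
  by_cases hc : c = 2
  · rw [if_pos hc, if_pos hc]
    have h2 : evP P i (none :: Q.map some) = pow P i ++ evP P i (Q.map some) := by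
      unfold evP
      rw [List.flatMap_cons]
    rw [h2, evP_some]
  · rw [if_neg hc, if_neg hc]
    unfold evP
    simp

theorem val_one' (h : Fin 3 → List α) (c : Fin 3) : val h [c] = h c := by
  unfold val
  simp

theorem val_evP {h : Fin 3 → List α} {P Q : List (Fin 3)} {i : ℕ} (hz : h 2 = pow (val h P) i ++ val h Q)
    (U : List (Fin 3)) : val h (evP P i (enc Q U)) = val h U := by
  induction U with
  | nil => rfl
  | cons c U ih =>
    have h1 : val h (c :: U) = h c ++ val h U := by
      unfold val
      rw [List.flatMap_cons]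
    rw [evP_enc_cons, val_append, ih, h1]
    congr 1
    by_cases hc : c = 2
    · rw [if_pos hc, val_append, val_pow, hc, hz]
    · rw [if_neg hc, val_one']

theorem pow_mem {β : Type} {w : List β} {n : ℕ} {c : β} (h : c ∈ pow w n) : c ∈ w := by
  unfold pow at h
  rw [List.mem_flatten] at h
  obtain ⟨l, hl, hc⟩ := h
  rw [List.eq_of_mem_replicate hl] at hc
  exact hc

theorem no_two {P Q : List (Fin 3)} (hP : (2 : Fin 3) ∉ P) (hQ : (2 : Fin 3) ∉ Q) (i : ℕ) (U : List (Fin 3)) :
    (2 : Fin 3) ∉ evP P i (enc Q U) := by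
  induction U with
  | nil =>
    intro h
    simp [enc, evP] at h
  | cons c U ih =>
    rw [evP_enc_cons]
    intro h
    rcases List.mem_append.1 h with h | h
    · by_cases hc : c = 2
      · rw [if_pos hc] at h
        rcases List.mem_append.1 h with h | h
        · exact hP (pow_mem h)
        · exact hQ h
      · rw [if_neg hc, List.mem_singleton] at h
        exact hc h.symm
    · exact ih h

/-- `h` is in the one-parameter family, parameter `i` -/
def Fam (P Q : List (Fin 3)) (h : Fin 3 → List α) (i : ℕ) : Prop :=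
  h 0 ++ h 1 ≠ h 1 ++ h 0 ∧ h 2 = pow (val h P) i ++ val h Q

theorem solves_fam {h : Fin 3 → List α} {P Q : List (Fin 3)} (hP : (2 : Fin 3) ∉ P) (hQ : (2 : Fin 3) ∉ Q)
    {i : ℕ} (hf : Fam P Q h i) (F : List (Fin 3) × List (Fin 3)) :
    Solves h F ↔ evP P i (enc Q F.1) = evP P i (enc Q F.2) := by
  unfold Solves
  rw [← val_evP hf.2 F.1, ← val_evP hf.2 F.2]
  exact ⟨fun e => val_inj h hf.1 (no_two hP hQ i _) (no_two hP hQ i _) e, fun e => by rw [e]⟩

theorem fam_four {P Q : List (Fin 3)} (hP : (2 : Fin 3) ∉ P) (hQ : (2 : Fin 3) ∉ Q)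
    (E : Fin 4 → List (Fin 3) × List (Fin 3)) (h : Fin 4 → Fin 3 → List α) (t : Fin 4 → ℕ)
    (hf : ∀ i, Fam P Q (h i) (t i)) (hs : ∀ i j, j < i → Solves (h i) (E j)) (hne : ∀ i, ¬ Solves (h i) (E i)) :
    False := by
  have hT := fun i => solves_fam hP hQ (hf i)
  have hdist : ∀ i j, i < j → t i ≠ t j := by
    intro i j hij e
    have h1 := (hT j (E i)).1 (hs j i hij)
    rw [← e] at h1
    exact hne i ((hT i (E i)).2 h1)
  have e1 := (hT 1 (E 0)).1 (hs 1 0 (by decide))
  have e2 := (hT 2 (E 0)).1 (hs 2 0 (by decide))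
  have e3 := (hT 3 (E 0)).1 (hs 3 0 (by decide))
  have d12 := hdist 1 2 (by decide)
  have d13 := hdist 1 3 (by decide)
  have d23 := hdist 2 3 (by decide)
  have two : ∀ a b : ℕ, 1 ≤ a → 1 ≤ b → a ≠ b → evP P a (enc Q (E 0).1) = evP P a (enc Q (E 0).2) →
      evP P b (enc Q (E 0).1) = evP P b (enc Q (E 0).2) →
      evP P (t 0) (enc Q (E 0).1) = evP P (t 0) (enc Q (E 0).2) := by
    intro a b ha hb hab h1 h2
    rcases lt_or_gt_of_ne hab with h | h
    · exact two_pos_pow P ha h _ _ h1 h2 _
    · exact two_pos_pow P hb h _ _ h2 h1 _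
  have key : evP P (t 0) (enc Q (E 0).1) = evP P (t 0) (enc Q (E 0).2) := by
    rcases Nat.eq_zero_or_pos (t 1) with h1 | h1
    · exact two (t 2) (t 3) (by omega) (by omega) d23 e2 e3
    · rcases Nat.eq_zero_or_pos (t 2) with h2 | h2
      · exact two (t 1) (t 3) h1 (by omega) d13 e1 e3
      · exact two (t 1) (t 2) h1 h2 d12 e1 e2
  exact hne 0 ((hT 0 (E 0)).2 key)

theorem fam_bound {n r : ℕ} {E : Fin n → List (Fin 3) × List (Fin 3)} {P Q : List (Fin 3)}
    (hP : (2 : Fin 3) ∉ P) (hQ : (2 : Fin 3) ∉ Q) (hE : Decreasing α n E)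
    (hr : ∀ h : Fin 3 → List α, (∀ i : Fin n, i.val < r → Solves h (E i)) → ¬ Per h →
      h 0 ++ h 1 ≠ h 1 ++ h 0 ∧ ∃ i : ℕ, h 2 = pow (val h P) i ++ val h Q) : n ≤ r + 6 := by
  classical
  choose h hs hne using hE
  let S1 : Finset (Fin n) := Finset.univ.filter (fun i => r ≤ i.val ∧ Per (h i))
  let S2 : Finset (Fin n) := Finset.univ.filter (fun i => r ≤ i.val ∧ ¬ Per (h i))
  let S0 : Finset (Fin n) := Finset.univ.filter (fun i => i.val < r)
  have c1 : S1.card ≤ 3 := by
    apply card_le
    intro e he hm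
    have := per_bound (fun i => E (e i)) (fun i => h (e i)) (fun i => (Finset.mem_filter.1 (hm i)).2.2)
      (fun i j hij => hs (e i) (e j) (he hij)) (fun i => hne (e i))
    omega
  have c2 : S2.card ≤ 3 := by
    apply card_le
    intro e he hm
    have hex : ∀ i : Fin 4, ∃ t : ℕ, Fam P Q (h (e i)) t := by
      intro i
      have h1 := hr (h (e i)) (fun j hj => hs (e i) j (Fin.lt_def.2
        (lt_of_lt_of_le hj (Finset.mem_filter.1 (hm i)).2.1))) (Finset.mem_filter.1 (hm i)).2.2
      obtain ⟨h2, t, h3⟩ := h1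
      exact ⟨t, h2, h3⟩
    choose t ht using hex
    exact fam_four hP hQ (fun i => E (e i)) (fun i => h (e i)) t ht
      (fun i j hij => hs (e i) (e j) (he hij)) (fun i => hne (e i))
  have c0 : S0.card ≤ r := by
    have h1 : S0.card ≤ (Finset.range r).card := by
      apply Finset.card_le_card_of_injOn (fun i : Fin n => i.val)
      · intro i hi
        have := (Finset.mem_filter.1 hi).2
        simpa using this
      · intro i _ j _ hij
        exact Fin.ext hij
    simpa using h1
  have hU : (Finset.univ : Finset (Fin n)) ⊆ S0 ∪ (S1 ∪ S2) := by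
    intro i _
    by_cases hi : i.val < r
    · exact Finset.mem_union_left _ (Finset.mem_filter.2 ⟨Finset.mem_univ _, hi⟩)
    · have hi' : r ≤ i.val := not_lt.1 hi
      apply Finset.mem_union_right
      by_cases hp : Per (h i)
      · exact Finset.mem_union_left _ (Finset.mem_filter.2 ⟨Finset.mem_univ _, hi', hp⟩)
      · exact Finset.mem_union_right _ (Finset.mem_filter.2 ⟨Finset.mem_univ _, hi', hp⟩)
  have h1 := Finset.card_le_card hU
  have h2 := Finset.card_union_le S0 (S1 ∪ S2)
  have h3 := Finset.card_union_le S1 S2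
  rw [Finset.card_univ, Fintype.card_fin] at h1
  omega

theorem pow_one'' (w : List α) : pow w 1 = w := by
  unfold pow
  simp

theorem val_pow_of_comm {h : Fin 3 → List α} {w : List α} {a b : ℕ} (h0 : h 0 = pow w a) (h1 : h 1 = pow w b)
    {U : List (Fin 3)} (hU : (2 : Fin 3) ∉ U) : val h U = pow w (U.count 0 * a + U.count 1 * b) := by
  induction U with
  | nil => simp [val, pow]
  | cons c U ih =>
    have hU' : (2 : Fin 3) ∉ U := fun hh => hU (List.mem_cons_of_mem _ hh)
    have e1 : val h (c :: U) = h c ++ val h U := by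
      unfold val
      rw [List.flatMap_cons]
    rw [e1, ih hU']
    fin_cases c
    · show h 0 ++ _ = _
      rw [h0, ← pow_add']
      congr 1
      simp [List.count_cons]
      ring
    · show h 1 ++ _ = _
      rw [h1, ← pow_add']
      congr 1
      simp [List.count_cons]
      ring
    · exact absurd List.mem_cons_self hU

/-- words over one letter -/
theorem one_letter {w : List (Fin 3)} {a b c : Fin 3} (habc : ∀ d : Fin 3, d = a ∨ d = b ∨ d = c)
    (ha : a ∉ w) (hb : b ∉ w) : w = List.replicate w.length c := by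
  rw [List.eq_replicate_iff]
  refine ⟨rfl, fun d hd => ?_⟩
  rcases habc d with h | h | h
  · exact absurd (h ▸ hd) ha
  · exact absurd (h ▸ hd) hb
  · exact h

theorem both_letters {u v : List (Fin 3)} (hu : (2 : Fin 3) ∉ u) (hv : (2 : Fin 3) ∉ v) (huv : u ++ v ≠ v ++ u) :
    (0 : Fin 3) ∈ u ++ v ∧ (1 : Fin 3) ∈ u ++ v := by
  constructor
  · by_contra hcon
    rw [List.mem_append, not_or] at hcon
    have e1 := one_letter (a := 2) (b := 0) (c := 1) (by decide) hu hcon.1
    have e2 := one_letter (a := 2) (b := 0) (c := 1) (by decide) hv hcon.2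
    apply huv
    rw [e1, e2, ← List.replicate_add, ← List.replicate_add, Nat.add_comm]
  · by_contra hcon
    rw [List.mem_append, not_or] at hcon
    have e1 := one_letter (a := 2) (b := 1) (c := 0) (by decide) hu hcon.1
    have e2 := one_letter (a := 2) (b := 1) (c := 0) (by decide) hv hcon.2
    apply huv
    rw [e1, e2, ← List.replicate_add, ← List.replicate_add, Nat.add_comm]

theorem mem_pow {β : Type} {w : List β} {n : ℕ} (hn : 0 < n) {c : β} (h : c ∈ w) : c ∈ pow w n := by
  obtain ⟨m, rfl⟩ : ∃ m, n = m + 1 := ⟨n - 1, by omega⟩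
  rw [pow_add', pow_one'']
  exact List.mem_append_right _ h

theorem fam_uv {p q : ℕ} (hp : 2 ≤ p) (hq : 2 ≤ q) {u v S T U V : List (Fin 3)} (hu2 : (2 : Fin 3) ∉ u)
    (hv2 : (2 : Fin 3) ∉ v) (huv : u ++ v ≠ v ++ u) (hTS : T ++ S = pow u p ++ pow v q)
    (hUV : S ++ T = U ++ V) (h : Fin 3 → List α) (hn : ¬ Per h)
    (hs : Solves h (S ++ T ++ [2], [2] ++ V ++ U)) :
    h 0 ++ h 1 ≠ h 1 ++ h 0 ∧ ∃ i : ℕ, h 2 = pow (val h (S ++ T)) i ++ val h (if V = [] then [] else U) := by
  have hno : (2 : Fin 3) ∉ pow u p ++ pow v q := by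
    intro hh
    rcases List.mem_append.1 hh with hh | hh
    · exact hu2 (pow_mem hh)
    · exact hv2 (pow_mem hh)
  have hnT : (2 : Fin 3) ∉ T := fun hh => hno (hTS ▸ List.mem_append_left _ hh)
  have hnS : (2 : Fin 3) ∉ S := fun hh => hno (hTS ▸ List.mem_append_right _ hh)
  have hnST : (2 : Fin 3) ∉ S ++ T := fun hh => by
    rcases List.mem_append.1 hh with hh | hh
    · exact hnS hh
    · exact hnT hh
  have hnU : (2 : Fin 3) ∉ U := fun hh => hnST (hUV ▸ List.mem_append_left _ hh)
  have hnV : (2 : Fin 3) ∉ V := fun hh => hnST (hUV ▸ List.mem_append_right _ hh)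
  have hmem : ∀ c : Fin 3, c ∈ u ++ v → 0 < (S ++ T).count c := by
    intro c hc
    rw [List.count_append, Nat.add_comm, ← List.count_append, hTS, List.count_pos_iff]
    rcases List.mem_append.1 hc with hh | hh
    · exact List.mem_append_left _ (mem_pow (by omega) hh)
    · exact List.mem_append_right _ (mem_pow (by omega) hh)
  have hc0 := hmem 0 (both_letters hu2 hv2 huv).1
  have hc1 := hmem 1 (both_letters hu2 hv2 huv).2
  have hvu : ∀ c : Fin 3, (V ++ U).count c = (S ++ T).count c := by
    intro c
    rw [List.count_append, Nat.add_comm, ← List.count_append, ← hUV]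
  have hnVU : (2 : Fin 3) ∉ V ++ U := fun hh => by
    rcases List.mem_append.1 hh with hh | hh
    · exact hnV hh
    · exact hnU hh
  have heq : val h (S ++ T) ++ h 2 = h 2 ++ val h (V ++ U) := by
    have h1 : val h (S ++ T ++ [2]) = val h ([2] ++ V ++ U) := hs
    rw [val_append, val_one', List.append_assoc, val_append h [2], val_one'] at h1
    exact h1
  have hxy : h 0 ++ h 1 ≠ h 1 ++ h 0 := by
    intro hc
    obtain ⟨w, a, b, h0, h1⟩ := comm_pow _ _ hc
    change h 0 = pow w a at h0
    change h 1 = pow w b at h1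
    have e1 := val_pow_of_comm h0 h1 hnST
    have e2 := val_pow_of_comm h0 h1 hnVU
    rw [hvu 0, hvu 1] at e2
    rw [e1, e2] at heq
    generalize (S ++ T).count 0 = cp at *
    generalize (S ++ T).count 1 = cq at *
    rcases Nat.eq_zero_or_pos (cp * a + cq * b) with h00 | h00
    · have ha : a = 0 := by
        rcases Nat.eq_zero_or_pos a with ha | ha
        · exact ha
        · have := Nat.mul_pos hc0 ha
          omega
      have hb : b = 0 := by
        rcases Nat.eq_zero_or_pos b with hb | hb
        · exact hb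
        · have := Nat.mul_pos hc1 hb
          omega
      apply hn
      refine ⟨h 2, fun c => ?_⟩
      fin_cases c
      · refine ⟨0, ?_⟩
        show h 0 = []
        rw [h0, ha]
        rfl
      · refine ⟨0, ?_⟩
        show h 1 = []
        rw [h1, hb]
        rfl
      · exact ⟨1, (pow_one'' (h 2)).symm⟩
    · have hrel := rel_comm w (h 2) (List.replicate (cp * a + cq * b) true ++ [false])
        (false :: List.replicate (cp * a + cq * b) true) (by
          intro he
          obtain ⟨N, hN⟩ : ∃ N, cp * a + cq * b = N + 1 := ⟨cp * a + cq * b - 1, by omega⟩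
          rw [hN] at he
          simp [List.replicate_succ] at he) (by
          have hf : ∀ N : ℕ, (List.replicate N true).flatMap (fun c => if c then w else h 2) = pow w N := by
            intro N
            induction N with
            | zero => rfl
            | succ N ih =>
              rw [List.replicate_succ, List.flatMap_cons, ih, Nat.add_comm N 1, pow_add', pow_one'']
              rfl
          rw [List.flatMap_append, List.flatMap_cons, hf]
          simpa [hf] using heq)
      obtain ⟨ρ, c, d, hw, hz⟩ := comm_pow _ _ hrel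
      change w = pow ρ c at hw
      change h 2 = pow ρ d at hz
      apply hn
      refine ⟨ρ, fun u => ?_⟩
      fin_cases u
      · exact ⟨c * a, by show h 0 = pow ρ (c * a); rw [pow_mul', ← hw, h0]⟩
      · exact ⟨c * b, by show h 1 = pow ρ (c * b); rw [pow_mul', ← hw, h1]⟩
      · exact ⟨d, hz⟩
  refine ⟨hxy, ?_⟩
  have hx : h 0 ≠ [] := by
    intro h0
    apply hxy
    rw [h0, List.nil_append, List.append_nil]
  have hy : h 1 ≠ [] := by
    intro h0
    apply hxy
    rw [h0, List.nil_append, List.append_nil]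
  have hne : ∀ W : List (Fin 3), (2 : Fin 3) ∉ W → W ≠ [] → val h W ≠ [] := by
    intro W hW hW0 h4
    obtain ⟨c, V', rfl⟩ := List.exists_cons_of_ne_nil hW0
    have h5 : val h (c :: V') = h c ++ val h V' := by
      unfold val
      rw [List.flatMap_cons]
    rw [h5] at h4
    have h6 := (List.append_eq_nil_iff.1 h4).1
    fin_cases c
    · exact hx h6
    · exact hy h6
    · exact hW List.mem_cons_self
  have huv' : val h u ++ val h v ≠ val h v ++ val h u := by
    intro he
    rw [← val_append, ← val_append] at he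
    apply huv
    refine val_inj h hxy ?_ ?_ he
    · exact fun hh => (List.mem_append.1 hh).elim hu2 hv2
    · exact fun hh => (List.mem_append.1 hh).elim hv2 hu2
  have hA : val h (S ++ T) = val h U ++ val h V := by rw [hUV, val_append]
  have hB : val h T ++ val h S = pow (val h u) p ++ pow (val h v) q := by
    rw [← val_append, hTS, val_append, val_pow, val_pow]
  rw [val_append h V] at heq
  -- `z V` commutes with `S T`
  have hcA : val h (S ++ T) ++ (h 2 ++ val h V) = (h 2 ++ val h V) ++ val h (S ++ T) := by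
    rw [← List.append_assoc, heq, hA]
    simp only [List.append_assoc]
  have hcB : (val h T ++ (h 2 ++ val h V) ++ val h S) ++ (val h T ++ val h S) =
      (val h T ++ val h S) ++ (val h T ++ (h 2 ++ val h V) ++ val h S) := by
    rw [val_append h S T] at hcA
    have e3 := congrArg (fun l => val h T ++ l ++ val h S) hcA
    simp only [List.append_assoc] at e3 ⊢
    exact e3.symm
  rw [hB] at hcB
  obtain ⟨w, k, m, hk, hm⟩ := comm_pow _ _ hcB
  change val h T ++ (h 2 ++ val h V) ++ val h S = pow w k at hk
  change pow (val h u) p ++ pow (val h v) q = pow w m at hm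
  have hBne : pow (val h u) p ++ pow (val h v) q ≠ [] := by
    intro h0
    apply huv'
    have h1 := List.append_eq_nil_iff.1 h0
    have h2 : val h u = [] := by
      by_contra h3
      exact pow_ne_nil h3 (by omega) h1.1
    rw [h2, List.nil_append, List.append_nil]
  have hm1 : m = 1 := by
    rcases Nat.lt_or_ge m 2 with h2 | h2
    · rcases Nat.eq_zero_or_pos m with h3 | h3
      · exfalso
        apply hBne
        rw [hm, h3]
        rfl
      · omega
    · exact absurd (lyndon_sch _ _ _ hp hq h2 hm) huv'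
  rw [hm1, pow_one''] at hm
  rw [← hm, ← hB] at hk
  obtain ⟨k', rfl⟩ : ∃ k', k = k' + 1 := by
    rcases Nat.eq_zero_or_pos k with h3 | h3
    · exfalso
      rw [h3, pow_zero'] at hk
      have h4 := List.append_eq_nil_iff.1 hk
      have h5 := List.append_eq_nil_iff.1 h4.1
      apply hBne
      rw [← hB, h5.1, h4.2]
      rfl
    · exact ⟨k - 1, by omega⟩
  -- `(t s)^(k'+1) = t (s t)^k' s`
  have hconj : ∀ N : ℕ, pow (val h T ++ val h S) (N + 1) = val h T ++ pow (val h S ++ val h T) N ++ val h S := by
    intro N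
    induction N with
    | zero => rw [pow_one'', pow_zero', List.append_nil]
    | succ N ih =>
      rw [pow_add' _ (N + 1) 1, ih, pow_one'', pow_add' _ N 1, pow_one'']
      simp only [List.append_assoc]
  rw [hconj] at hk
  have hc : h 2 ++ val h V = pow (val h S ++ val h T) k' :=
    List.append_cancel_left (List.append_cancel_right hk)
  rw [← val_append] at hc
  by_cases hV : V = []
  · refine ⟨k', ?_⟩
    rw [if_pos hV]
    rw [hV] at hc
    show h 2 = pow (val h (S ++ T)) k' ++ []
    rw [List.append_nil]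
    have h6 : h 2 ++ [] = pow (val h (S ++ T)) k' := hc
    rw [List.append_nil] at h6
    exact h6
  · rcases Nat.eq_zero_or_pos k' with h3 | h3
    · exfalso
      rw [h3, pow_zero'] at hc
      exact hne V hnV hV (List.append_eq_nil_iff.1 hc).2
    · obtain ⟨k'', rfl⟩ : ∃ k'', k' = k'' + 1 := ⟨k' - 1, by omega⟩
      refine ⟨k'', ?_⟩
      rw [if_neg hV]
      rw [pow_add', pow_one''] at hc
      have hc2 : h 2 ++ val h V = pow (val h (S ++ T)) k'' ++ (val h U ++ val h V) := by
        rw [← hA]
        exact hc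
      rw [← List.append_assoc] at hc2
      exact List.append_cancel_right hc2

theorem uv_bound {n p q : ℕ} (hp : 2 ≤ p) (hq : 2 ≤ q) {u v S T U V : List (Fin 3)} (hu2 : (2 : Fin 3) ∉ u)
    (hv2 : (2 : Fin 3) ∉ v) (huv : u ++ v ≠ v ++ u) (hTS : T ++ S = pow u p ++ pow v q)
    (hUV : S ++ T = U ++ V) {E : Fin (n + 1) → List (Fin 3) × List (Fin 3)} (hE : Decreasing α (n + 1) E)
    (h0 : E 0 = (S ++ T ++ [2], [2] ++ V ++ U)) : n + 1 ≤ 7 := by
  have hno : (2 : Fin 3) ∉ pow u p ++ pow v q := by
    intro hh
    rcases List.mem_append.1 hh with hh | hh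
    · exact hu2 (pow_mem hh)
    · exact hv2 (pow_mem hh)
  have hnT : (2 : Fin 3) ∉ T := fun hh => hno (hTS ▸ List.mem_append_left _ hh)
  have hnS : (2 : Fin 3) ∉ S := fun hh => hno (hTS ▸ List.mem_append_right _ hh)
  have hnST : (2 : Fin 3) ∉ S ++ T := fun hh => by
    rcases List.mem_append.1 hh with hh | hh
    · exact hnS hh
    · exact hnT hh
  have hnQ : (2 : Fin 3) ∉ (if V = [] then [] else U) := by
    split_ifs
    · exact List.not_mem_nil
    · exact fun hh => hnST (hUV ▸ List.mem_append_left _ hh)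
  have := fam_bound (r := 1) hnST hnQ hE (fun h hh hn => by
    have h1 := hh 0 (by simp)
    rw [h0] at h1
    exact fam_uv hp hq hu2 hv2 huv hTS hUV h hn h1)
  omega

end Pool.Agent.H70.WE
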