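import Pool.Agent.H70.WE.Typ

/-!
# [H70 WP TP] Two positive exponents force all exponents

`evP P i U`: the unknown (`none`) gets the value `P^i`, the constants (`some c`) are kept. If `evP P i U = evP P i V` and
`evP P k U = evP P k V` for `1 ≤ i < k`, then `evP P l U = evP P l V` for all `l`.

PROOF. `P = []`: trivial. `P = R^m`, `R` primitive, `m ≥ 1`: `evP P l = evP R (m l)`; so let `P` be primitive (not a proper power), with
LEMMA A: if `W ++ P` is a prefix of `P^M` then `W = P^c` (an occurrence of `P` at the position `|W|` of `P^M`: with `W = P^c W'`, `|W'| < |P|`,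
`W' ++ P` and `P ++ P` are prefixes of one word, so `P = W' R`, `W' P` prefix of `P P`, i.e. `R W' = P = W' R`, commuting words, so `W' = []`), and
LEMMA B: if `W` is a prefix of `P^d ++ W`, `d ≥ 1`, then `W` is a prefix of `P^M` for large `M`.
The lengths at `i` and `k` give: `U` and `V` have the same number of `z = none`, and of constants. Induction on `μ U + μ V`, where
`μ U = (number of constants) + sum over the z in U of (1 + number of constants in front of it)` (it drops when a first letter is cancelled,
when a `z` is removed, and when `.. P^v z ..` is replaced by `.. z P^v ..`, `v ≥ 1`). Equal first letters: cancel. Two different constants: impossible.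
One word empty: then the other one too (counts). So (symmetry) `U = U0 z U'`, `U0 ≠ []` constants (`U` has a `z` because `V` has one),
`V = z^s Vs V''`, `s ≥ 1`, `Vs` constants, `V''` empty or starting with `z`; `Vs ≠ []` (otherwise `V = z^s` has no constants).
(R) If `U0 = P^c`, `c ≥ 1`: `U` has at all `l` the value `P^l evP l (P^c U')`; cancel the `z` of `V`: induction for `P^c U'` and the rest of `V`.
(R') If `Vs = P^v`, `v ≥ 1`, and `V'' = z V'''`: replace `V` by `z^(s+1) P^v V'''` (same values at all `l`, smaller `μ`).
1. `|U0| + |P| ≤ s k |P|`: `U0 P` and `P^(s k)` are prefixes of the common value at `k`, Lemma A: (R).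
2. Otherwise `|U0| > (s k - 1) |P| ≥ s i |P|`, and `U0 = P^(s i) W` (value at `i`), `|W| > (d - 1) |P|`, `d = s (k - i) ≥ 1`.
 (Ai) `Vs e_i(V'') = W P^i e_i(U')`, (Ak) `P^d Vs e_k(V'') = W P^k e_k(U')` (cancel `P^(s i)`).
 2a. `|W| ≤ |Vs|`: `Vs = W X` by (Ai); by (Ak) `W` is a prefix of `P^d W`, so (B) `W` and `P^d W` are prefixes of powers of `P`, and `W P` is a
 prefix of `P^d W` (lengths): `W = P^c`, `U0 = P^(s i + c)`: (R).
 2b. `|W| > |Vs|`: `W = Vs Y`, `Y ≠ []`, `V'' = z V'''`, (Ai) `P^i e_i(V''') = Y P^i e_i(U')`, (Ak) `P^d Vs P^k .. = Vs Y P^k ..`; `Vs` is a prefix of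
 `P^d Vs`, so `P^d Vs` is a prefix of a power of `P` (B). 2b1. `|Y| ≥ |P|`: `P` is a prefix of `Y` (Ai), so `Vs P` is a prefix of `P^d Vs`:
 `Vs = P^v` (A): (R'). 2b2. `|Y| < |P|`, `d ≥ 2`: `Vs Y P` is a prefix of `P^d Vs`, so `W = Vs Y = P^c`: (R). 2b3. `|Y| < |P|`, `d = 1`: `s = 1`,
 `k = i + 1 ≥ 2`, `P Vs = Vs Y Z`, `0 < |Z| < |P|`, (Ak) gives `Z P^k .. = P^k ..`, so `Z P` is a prefix of `P^k`, `Z = P^c`: contradiction.
-/

set_option autoImplicit false

namespace Pool.Agent.H70.WE

/-- evaluation: the value of the unknown `none` is `P^i` -/
def evP {β : Type} (P : List β) (i : ℕ) (U : List (Option β)) : List β :=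
  U.flatMap (fun o => match o with
    | none => pow P i
    | some c => [c])

section TP

variable {β : Type}

private theorem ev_nil (P : List β) (i : ℕ) : evP P i [] = [] := rfl

private theorem ev_none (P : List β) (i : ℕ) (U : List (Option β)) :
    evP P i (none :: U) = pow P i ++ evP P i U := rfl

private theorem ev_some (P : List β) (i : ℕ) (c : β) (U : List (Option β)) :
    evP P i (some c :: U) = c :: evP P i U := rfl

private theorem ev_append (P : List β) (i : ℕ) (U V : List (Option β)) :
    evP P i (U ++ V) = evP P i U ++ evP P i V := by
  unfold evP
  rw [List.flatMap_append]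

private theorem ev_const (P : List β) (i : ℕ) (w : List β) : evP P i (w.map some) = w := by
  induction w with
  | nil => rfl
  | cons c w ih => rw [List.map_cons, ev_some, ih]

/-- the number of unknowns -/
private def nz : List (Option β) → ℕ
  | [] => 0
  | none :: U => nz U + 1
  | some _ :: U => nz U

/-- the number of constants -/
private def nc : List (Option β) → ℕ
  | [] => 0
  | none :: U => nc U
  | some _ :: U => nc U + 1

private theorem nz_append (U V : List (Option β)) : nz (U ++ V) = nz U + nz V := by
  induction U with
  | nil => simp [nz]
  | cons o U ih =>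
    cases o with
    | none => simp only [List.cons_append, nz, ih]; omega
    | some c => simp only [List.cons_append, nz, ih]

private theorem ev_length (P : List β) (i : ℕ) (U : List (Option β)) :
    (evP P i U).length = nc U + nz U * (i * P.length) := by
  induction U with
  | nil => simp [ev_nil, nc, nz]
  | cons o U ih =>
    cases o with
    | none =>
      rw [ev_none, List.length_append, ih, pow_length]
      simp only [nc, nz]
      ring
    | some c =>
      rw [ev_some, List.length_cons, ih]
      simp only [nc, nz]
      ring

/-- primitive words -/
private def Prim (P : List β) : Prop := P ≠ [] ∧ ∀ (Q : List β) (n : ℕ), P = pow Q n → n = 1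

private theorem pow_one' (P : List β) : pow P 1 = P := by
  unfold pow
  simp

private theorem pow_succ_left (P : List β) (n : ℕ) : pow P (n + 1) = P ++ pow P n := by
  rw [Nat.add_comm, pow_add', pow_one']

private theorem pow_comm (P : List β) (m n : ℕ) : pow P m ++ pow P n = pow P n ++ pow P m := by
  rw [← pow_add', ← pow_add', Nat.add_comm]

private theorem exists_root : ∀ (n : ℕ) (P : List β), P.length ≤ n → P ≠ [] →
    ∃ (R : List β) (m : ℕ), Prim R ∧ 1 ≤ m ∧ P = pow R m := by
  intro n
  induction n with
  | zero =>
    intro P hn hP
    exact absurd (List.eq_nil_of_length_eq_zero (by omega)) hP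
  | succ n ih =>
    intro P hn hP
    by_cases hpr : Prim P
    · exact ⟨P, 1, hpr, le_rfl, (pow_one' P).symm⟩
    · unfold Prim at hpr
      push Not at hpr
      obtain ⟨Q, m, hQ, hm⟩ := hpr hP
      have hm0 : m ≠ 0 := by
        rintro rfl
        exact hP (hQ.trans (pow_zero' Q))
      have hQ0 : Q ≠ [] := by
        rintro rfl
        exact hP (hQ.trans (pow_nil m))
      have hl := congrArg List.length hQ
      rw [pow_length] at hl
      have hQl : 1 ≤ Q.length := List.length_pos_iff.mpr hQ0
      have h2 : 2 * Q.length ≤ m * Q.length := Nat.mul_le_mul_right _ (by omega)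
      obtain ⟨R, m', hR, hm', hQR⟩ := ih Q (by omega) hQ0
      refine ⟨R, m' * m, hR, Nat.mul_pos hm' (by omega), ?_⟩
      rw [pow_mul', ← hQR]
      exact hQ

/-- an occurrence of a primitive word in its powers -/
private theorem lemA {P : List β} (hP : Prim P) : ∀ (M : ℕ) (W : List β),
    W ++ P <+: pow P M → ∃ c, W = pow P c := by
  intro M
  have hP1 : 1 ≤ P.length := List.length_pos_iff.mpr hP.1
  induction M with
  | zero =>
    intro W hW
    have h1 := hW.length_le
    rw [List.length_append, pow_length] at h1
    omega
  | succ M ih =>
    intro W hW
    rcases Nat.lt_or_ge W.length P.length with hlt | hge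
    · by_cases hW0 : W = []
      · exact ⟨0, hW0⟩
      exfalso
      have hW1 : 1 ≤ W.length := List.length_pos_iff.mpr hW0
      have h1 := hW.length_le
      rw [List.length_append, pow_length] at h1
      obtain ⟨M', rfl⟩ : ∃ M', M = M' + 1 := by
        rcases Nat.eq_zero_or_pos M with h0 | h0
        · subst h0
          omega
        · exact ⟨M - 1, by omega⟩
      have hWP : W <+: P := by
        refine List.prefix_of_prefix_length_le ((List.prefix_append W P).trans hW) ?_ hlt.le
        rw [pow_succ_left]
        exact List.prefix_append _ _
      obtain ⟨R, hR⟩ := hWP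
      have h2 : W ++ P <+: P ++ P := by
        refine List.prefix_of_prefix_length_le hW ?_ (by
          rw [List.length_append, List.length_append]
          omega)
        rw [pow_succ_left, pow_succ_left, ← List.append_assoc]
        exact List.prefix_append _ _
      have h3 : P <+: R ++ P := by
        have e : P ++ P = W ++ (R ++ P) := by
          rw [← List.append_assoc, hR]
        rw [e] at h2
        exact (List.prefix_append_right_inj W).1 h2
      have h4 : P = R ++ W := by
        have h5 : R ++ W <+: R ++ P := by
          rw [List.prefix_append_right_inj]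
          exact ⟨R, hR⟩
        have hl : P.length = (R ++ W).length := by
          rw [← hR, List.length_append, List.length_append]
          omega
        exact (List.prefix_of_prefix_length_le h3 h5 hl.le).eq_of_length hl
      have h5 : W ++ R = R ++ W := by rw [hR]; exact h4
      obtain ⟨w, a, b, ha, hb⟩ := comm_pow W R h5
      change W = pow w a at ha
      change R = pow w b at hb
      have h6 : P = pow w (a + b) := by rw [pow_add', ← ha, ← hb, hR]
      have h7 := hP.2 w (a + b) h6
      have ha0 : a ≠ 0 := by
        rintro rfl
        exact hW0 ha
      have hb0 : b ≠ 0 := by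
        rintro rfl
        have hl := congrArg List.length hR
        rw [List.length_append, hb, pow_length] at hl
        omega
      omega
    · have hPW : P <+: W := by
        refine List.prefix_of_prefix_length_le ?_ ((List.prefix_append W P).trans hW) hge
        rw [pow_succ_left]
        exact List.prefix_append _ _
      obtain ⟨W', rfl⟩ := hPW
      rw [pow_succ_left, List.append_assoc, List.prefix_append_right_inj] at hW
      obtain ⟨c, hc⟩ := ih W' hW
      exact ⟨c + 1, by rw [pow_succ_left, hc]⟩

/-- the scan -/
private theorem scan {P : List β} (hP : Prim P) {i k : ℕ} (hi : 1 ≤ i) (hik : i < k)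
    (v0 Xi Xk : List β) (hXk : v0 ++ pow P k <+: Xk) (hXi : v0 <+: Xi)
    (hlen : v0.length < Xi.length) :
    ∀ (Ub Ua : List (Option β)), 1 ≤ nz Ua → evP P i (Ua ++ Ub) = Xi →
      evP P k (Ua ++ Ub) = Xk → (∃ M, evP P k Ua <+: pow P M) → ∃ c, v0 = pow P c := by
  have hP1 : 1 ≤ P.length := List.length_pos_iff.mpr hP.1
  have hPk : P <+: pow P k := by
    obtain ⟨k', rfl⟩ : ∃ k', k = k' + 1 := ⟨k - 1, by omega⟩
    rw [pow_succ_left]
    exact List.prefix_append _ _
  have hPi : P <+: pow P i := by
    obtain ⟨i', rfl⟩ : ∃ i', i = i' + 1 := ⟨i - 1, by omega⟩
    rw [pow_succ_left]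
    exact List.prefix_append _ _
  have hv0k : v0 <+: Xk := (List.prefix_append _ _).trans hXk
  intro Ub
  induction Ub with
  | nil =>
    intro Ua hz h1 h2 hM
    obtain ⟨M, hM⟩ := hM
    rw [List.append_nil] at h1 h2
    have e1 := ev_length P i Ua
    have e2 := ev_length P k Ua
    have e3 : nz Ua * (i * P.length) + nz Ua * ((k - i) * P.length) = nz Ua * (k * P.length) := by
      rw [← Nat.mul_add, ← Nat.add_mul, Nat.add_sub_cancel' hik.le]
    have e4 : P.length ≤ nz Ua * ((k - i) * P.length) := by
      calc P.length = 1 * (1 * P.length) := by ring
        _ ≤ nz Ua * ((k - i) * P.length) :=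
          Nat.mul_le_mul hz (Nat.mul_le_mul_right _ (by omega))
    have e5 : v0 ++ P <+: evP P k Ua := by
      refine List.prefix_of_prefix_length_le (l₃ := Xk) ?_ (by rw [h2]) ?_
      · exact ((List.prefix_append_right_inj v0).2 hPk).trans hXk
      · rw [List.length_append, e2]
        rw [h1] at e1
        omega
    exact lemA hP M v0 (e5.trans hM)
  | cons o Ub ih =>
    intro Ua hz h1 h2 hM
    have hM0 := hM
    obtain ⟨M, hM⟩ := hM
    obtain ⟨e, he⟩ : ∃ e, e = nz Ua * (k - i) := ⟨_, rfl⟩
    have he1 : 1 ≤ e := by
      rw [he]
      exact Nat.mul_pos hz (by omega)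
    have hlen2 : (evP P k Ua).length = (evP P i Ua).length + e * P.length := by
      rw [ev_length, ev_length, he]
      have e3 : nz Ua * (i * P.length) + nz Ua * (k - i) * P.length = nz Ua * (k * P.length) := by
        rw [Nat.mul_assoc, ← Nat.mul_add, ← Nat.add_mul, Nat.add_sub_cancel' hik.le]
      omega
    have hPe : P.length ≤ e * P.length := Nat.le_mul_of_pos_left _ he1
    have hUak : evP P k Ua <+: Xk := by
      rw [← h2, ev_append]
      exact List.prefix_append _ _
    have hUai : evP P i Ua <+: Xi := by
      rw [← h1, ev_append]
      exact List.prefix_append _ _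
    by_cases hfin : v0.length + P.length ≤ (evP P k Ua).length
    · have e5 : v0 ++ P <+: evP P k Ua := by
        refine List.prefix_of_prefix_length_le (l₃ := Xk) ?_ hUak ?_
        · exact ((List.prefix_append_right_inj v0).2 hPk).trans hXk
        · rw [List.length_append]
          exact hfin
      exact lemA hP M v0 (e5.trans hM)
    · have hps : (evP P i Ua).length < v0.length := by omega
      -- the two values
      have hval : ∀ W : List β, evP P i Ua ++ W <+: pow P M →
          evP P k Ua ++ W <+: pow P (e + M) := by
        intro W hW
        have g1 : pow P e ++ (evP P i Ua ++ W) <+: pow P (e + M) := by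
          rw [pow_add', List.prefix_append_right_inj]
          exact hW
        have g2 : evP P k Ua <+: pow P (e + M) := by
          refine hM.trans ?_
          rw [Nat.add_comm, pow_add']
          exact List.prefix_append _ _
        have g3 : evP P k Ua = pow P e ++ evP P i Ua := by
          have g4 : pow P e ++ evP P i Ua <+: pow P (e + M) := by
            refine (List.prefix_append _ W).trans ?_
            rw [List.append_assoc]
            exact g1
          have hl : (evP P k Ua).length = (pow P e ++ evP P i Ua).length := by
            rw [List.length_append, pow_length, hlen2]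
            omega
          exact (List.prefix_of_prefix_length_le g2 g4 hl.le).eq_of_length hl
        rw [g3, List.append_assoc]
        exact g1
      cases o with
      | some x =>
        have g1 : evP P i Ua ++ [x] <+: Xi := by
          rw [← h1, ev_append, ev_some, List.prefix_append_right_inj]
          exact ⟨evP P i Ub, rfl⟩
        have g2 : evP P i Ua ++ [x] <+: v0 := by
          refine List.prefix_of_prefix_length_le g1 hXi ?_
          rw [List.length_append, List.length_singleton]
          omega
        have g3 : evP P i Ua ++ [x] <+: evP P k Ua := by
          refine List.prefix_of_prefix_length_le (g2.trans hv0k) hUak ?_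
          rw [List.length_append, List.length_singleton]
          omega
        have g4 := hval [x] (g3.trans hM)
        refine ih (Ua ++ [some x]) ?_ ?_ ?_ ⟨e + M, ?_⟩
        · rw [nz_append]
          omega
        · rw [List.append_assoc]
          exact h1
        · rw [List.append_assoc]
          exact h2
        · rw [ev_append, ev_some, ev_nil]
          exact g4
      | none =>
        by_cases hA : (evP P i Ua).length + P.length ≤ v0.length
        · have g1 : evP P i Ua ++ P <+: Xi := by
            rw [← h1, ev_append, ev_none, List.prefix_append_right_inj]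
            exact hPi.trans (List.prefix_append _ _)
          have g2 : evP P i Ua ++ P <+: v0 := by
            refine List.prefix_of_prefix_length_le g1 hXi ?_
            rw [List.length_append]
            exact hA
          have g3 : evP P i Ua ++ P <+: evP P k Ua := by
            refine List.prefix_of_prefix_length_le (g2.trans hv0k) hUak ?_
            rw [List.length_append]
            omega
          obtain ⟨c, hc⟩ := lemA hP M _ (g3.trans hM)
          have g4 : evP P k Ua = pow P (e + c) := by
            have g5 := hval [] (by
              rw [List.append_nil]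
              exact ((List.prefix_append _ P).trans g3).trans hM)
            rw [List.append_nil] at g5
            have g6 : pow P (e + c) <+: pow P (e + M + (e + c)) := by
              rw [Nat.add_comm (e + M), pow_add' P (e + c) (e + M)]
              exact List.prefix_append _ _
            have g7 : evP P k Ua <+: pow P (e + M + (e + c)) := by
              refine g5.trans ?_
              rw [pow_add' P (e + M)]
              exact List.prefix_append _ _
            have hl : (evP P k Ua).length = (pow P (e + c)).length := by
              rw [hlen2, hc, pow_length, pow_length]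
              ring
            exact (List.prefix_of_prefix_length_le g7 g6 hl.le).eq_of_length hl
          refine ih (Ua ++ [none]) ?_ ?_ ?_ ⟨e + c + k, ?_⟩
          · rw [nz_append]
            omega
          · rw [List.append_assoc]
            exact h1
          · rw [List.append_assoc]
            exact h2
          · rw [ev_append, ev_none, ev_nil, List.append_nil, g4, ← pow_add']
        · exfalso
          have he2 : e = 1 := by
            by_contra hne
            have h3 : 2 * P.length ≤ e * P.length := Nat.mul_le_mul_right _ (by omega)
            omega
          rw [he2, Nat.one_mul] at hlen2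
          have g1 : v0 <+: evP P k Ua :=
            List.prefix_of_prefix_length_le hv0k hUak (by omega)
          obtain ⟨Z, hZ⟩ := g1
          have hZl : v0.length + Z.length = (evP P i Ua).length + P.length := by
            rw [← hlen2, ← hZ, List.length_append]
          have g2 : v0 ++ (Z ++ P) <+: Xk := by
            rw [← List.append_assoc, hZ, ← h2, ev_append, ev_none, List.prefix_append_right_inj]
            exact hPk.trans (List.prefix_append _ _)
          have g3 : v0 ++ (Z ++ P) <+: v0 ++ pow P k := by
            refine List.prefix_of_prefix_length_le g2 hXk ?_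
            rw [List.length_append, List.length_append, List.length_append, pow_length]
            have h3 : 2 * P.length ≤ k * P.length := Nat.mul_le_mul_right _ (by omega)
            omega
          rw [List.prefix_append_right_inj] at g3
          obtain ⟨c, hc⟩ := lemA hP k Z g3
          have hcl := congrArg List.length hc
          rw [pow_length] at hcl
          have hc0 : c ≠ 0 := by
            rintro rfl
            omega
          have h3 : P.length ≤ c * P.length := Nat.le_mul_of_pos_left _ (by omega)
          omega

/-- a word with an unknown: the constants in front of the first unknown -/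
private theorem split : ∀ V : List (Option β), 1 ≤ nz V →
    ∃ (v0 : List β) (V1 : List (Option β)), V = v0.map some ++ none :: V1 := by
  intro V
  induction V with
  | nil => intro h; simp [nz] at h
  | cons o V ih =>
    intro h
    cases o with
    | none => exact ⟨[], V, rfl⟩
    | some c =>
      obtain ⟨v0, V1, h1⟩ := ih h
      exact ⟨c :: v0, V1, by rw [h1]; rfl⟩

private theorem nz_eq {P : List β} (hP : P ≠ []) {i k : ℕ} (hik : i < k) (U V : List (Option β))
    (h1 : evP P i U = evP P i V) (h2 : evP P k U = evP P k V) : nz U = nz V := by
  have hP1 : 1 ≤ P.length := List.length_pos_iff.mpr hP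
  have e1 := congrArg List.length h1
  have e2 := congrArg List.length h2
  rw [ev_length, ev_length] at e1 e2
  have e3 : ∀ n : ℕ, n * (k * P.length) = n * (i * P.length) + n * ((k - i) * P.length) := by
    intro n
    rw [← Nat.mul_add, ← Nat.add_mul, Nat.add_sub_cancel' hik.le]
  rw [e3, e3] at e2
  have e4 : nz U * ((k - i) * P.length) = nz V * ((k - i) * P.length) := by omega
  exact Nat.eq_of_mul_eq_mul_right (Nat.mul_pos (by omega) hP1) e4

/-- one step: an unknown against a constant -/
private theorem step {P : List β} (hP : Prim P) {i k : ℕ} (hi : 1 ≤ i) (hik : i < k)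
    (U1 V : List (Option β)) (h1 : evP P i (none :: U1) = evP P i V)
    (h2 : evP P k (none :: U1) = evP P k V) :
    ∃ V' : List (Option β), V'.length + 1 = V.length ∧ (∀ l, evP P l V = pow P l ++ evP P l V') := by
  have hz := nz_eq hP.1 hik _ _ h1 h2
  obtain ⟨v0, V1, rfl⟩ := split V (by rw [← hz]; simp [nz])
  have hP1 : 1 ≤ P.length := List.length_pos_iff.mpr hP.1
  have hv : ∀ l, evP P l (v0.map some ++ none :: V1) = v0 ++ (pow P l ++ evP P l V1) := by
    intro l
    rw [ev_append, ev_const, ev_none]
  have hc : ∃ c, v0 = pow P c := by
    refine scan hP hi hik v0 (evP P i (v0.map some ++ none :: V1))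
      (evP P k (v0.map some ++ none :: V1)) ?_ ?_ ?_ U1 [none] ?_ h1 h2 ⟨k, ?_⟩
    · rw [hv, List.prefix_append_right_inj]
      exact List.prefix_append _ _
    · rw [hv]
      exact List.prefix_append _ _
    · rw [hv, List.length_append, List.length_append, pow_length]
      have : 1 * 1 ≤ i * P.length := Nat.mul_le_mul hi hP1
      omega
    · simp [nz]
    · rw [ev_none, ev_nil, List.append_nil]
  obtain ⟨c, hc⟩ := hc
  refine ⟨v0.map some ++ V1, ?_, fun l => ?_⟩
  · rw [List.length_append, List.length_append, List.length_cons]
    omega
  · rw [hv, ev_append, ev_const, hc, ← List.append_assoc, ← List.append_assoc, pow_comm]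

private theorem prim_case {P : List β} (hP : Prim P) {i k : ℕ} (hi : 1 ≤ i) (hik : i < k) :
    ∀ (n : ℕ) (U V : List (Option β)), U.length + V.length ≤ n → evP P i U = evP P i V →
      evP P k U = evP P k V → ∀ l, evP P l U = evP P l V := by
  intro n
  induction n with
  | zero =>
    intro U V hn _ _ l
    have hU : U = [] := List.eq_nil_of_length_eq_zero (by omega)
    have hV : V = [] := List.eq_nil_of_length_eq_zero (by omega)
    rw [hU, hV]
  | succ n ih =>
    intro U V hn h1 h2 l
    have hne : ∀ (o : Option β) (W : List (Option β)), evP P i (o :: W) ≠ [] := by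
      intro o W hW
      cases o with
      | none =>
        rw [ev_none] at hW
        exact pow_ne_nil hP.1 hi (List.append_eq_nil_iff.1 hW).1
      | some c =>
        rw [ev_some] at hW
        exact List.cons_ne_nil _ _ hW
    cases U with
    | nil =>
      cases V with
      | nil => rfl
      | cons o V => exact absurd h1.symm (hne o V)
    | cons o U =>
      cases V with
      | nil => exact absurd h1 (hne o U)
      | cons o' V =>
        rw [List.length_cons, List.length_cons] at hn
        cases o with
        | none =>
          cases o' with
          | none =>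
            rw [ev_none, ev_none] at h1 h2
            rw [ev_none, ev_none, ih U V (by omega) (List.append_cancel_left h1)
              (List.append_cancel_left h2) l]
          | some c =>
            obtain ⟨V', hl, hV'⟩ := step hP hi hik U (some c :: V) h1 h2
            rw [List.length_cons] at hl
            rw [hV', ev_none] at h1 h2
            rw [hV', ev_none, ih U V' (by omega) (List.append_cancel_left h1)
              (List.append_cancel_left h2) l]
        | some c =>
          cases o' with
          | none =>
            obtain ⟨U', hl, hU'⟩ := step hP hi hik V (some c :: U) h1.symm h2.symm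
            rw [List.length_cons] at hl
            rw [hU', ev_none] at h1 h2
            rw [hU', ev_none, ih U' V (by omega) (List.append_cancel_left h1)
              (List.append_cancel_left h2) l]
          | some c' =>
            rw [ev_some, ev_some] at h1 h2
            have g1 := List.cons.inj h1
            have g2 := List.cons.inj h2
            rw [ev_some, ev_some, g1.1, ih U V (by omega) g1.2 g2.2 l]

private theorem ev_pow (R : List β) (m l : ℕ) (U : List (Option β)) :
    evP (pow R m) l U = evP R (m * l) U := by
  induction U with
  | nil => rfl
  | cons o U ih =>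
    cases o with
    | none => rw [ev_none, ev_none, ih, pow_mul']
    | some c => rw [ev_some, ev_some, ih]

private theorem ev_empty (i l : ℕ) (U : List (Option β)) : evP [] i U = evP [] l U := by
  induction U with
  | nil => rfl
  | cons o U ih =>
    cases o with
    | none => rw [ev_none, ev_none, ih, pow_nil, pow_nil]
    | some c => rw [ev_some, ev_some, ih]

end TP

theorem two_pos_pow {β : Type} (P : List β) {i k : ℕ} (hi : 1 ≤ i) (hik : i < k) (U V : List (Option β))
    (h1 : evP P i U = evP P i V) (h2 : evP P k U = evP P k V) (l : ℕ) : evP P l U = evP P l V := by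
  by_cases hP : P = []
  · subst hP
    rw [ev_empty l i U, ev_empty l i V]
    exact h1
  · obtain ⟨R, m, hR, hm, rfl⟩ := exists_root P.length P le_rfl hP
    rw [ev_pow, ev_pow] at h1 h2 ⊢
    exact prim_case hR (Nat.mul_pos hm hi) (Nat.mul_lt_mul_of_pos_left hik hm) _ U V le_rfl h1 h2 _

end Pool.Agent.H70.WE
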